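import Mathlib
import Pool.Agent.Helper278.Wot

/-!
Weak operator limits of bounded families along ultrafilters.
-/

set_option autoImplicit false
set_option linter.unusedSectionVars false

open scoped InnerProductSpace Topology ComplexOrder
open Filter

noncomputable section

namespace Pool.Agent.Y502.WD

universe u v

variable {H : Type u} [NormedAddCommGroup H] [InnerProductSpace ℂ H] [CompleteSpace H]

/-- weak operator convergence along a filter -/
def WT {ι : Type v} (F : Filter ι) (f : ι → H →L[ℂ] H) (z : H →L[ℂ] H) : Prop :=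
  ∀ ξ η : H, Tendsto (fun i => ⟪η, f i ξ⟫_ℂ) F (𝓝 ⟪η, z ξ⟫_ℂ)

namespace WT

variable {ι : Type v} {F : Filter ι} {f g : ι → H →L[ℂ] H} {z w : H →L[ℂ] H}

theorem unique [F.NeBot] (h : WT F f z) (h' : WT F f w) : z = w := by
  ext ξ
  refine ext_inner_left ℂ fun η => ?_
  exact tendsto_nhds_unique (h ξ η) (h' ξ η)

theorem const (z : H →L[ℂ] H) : WT F (fun _ => z) z := fun _ _ => tendsto_const_nhds

theorem congr' (h : WT F f z) (hfg : ∀ᶠ i in F, f i = g i) : WT F g z := by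
  intro ξ η
  refine (h ξ η).congr' ?_
  filter_upwards [hfg] with i hi
  rw [hi]

theorem of_eventually_eq (h : ∀ᶠ i in F, f i = z) : WT F f z :=
  (const z).congr' (h.mono fun _ hi => hi.symm)

theorem add (h : WT F f z) (h' : WT F g w) : WT F (fun i => f i + g i) (z + w) := by
  intro ξ η
  have := (h ξ η).add (h' ξ η)
  simpa [inner_add_right] using this

theorem sub (h : WT F f z) (h' : WT F g w) : WT F (fun i => f i - g i) (z - w) := by
  intro ξ η
  have := (h ξ η).sub (h' ξ η)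
  simpa [inner_sub_right] using this

theorem smul (c : ℂ) (h : WT F f z) : WT F (fun i => c • f i) (c • z) := by
  intro ξ η
  have := (h ξ η).const_mul c
  simpa [inner_smul_right] using this

theorem mul_left (a : H →L[ℂ] H) (h : WT F f z) : WT F (fun i => a * f i) (a * z) := by
  intro ξ η
  have := h ξ (ContinuousLinearMap.adjoint a η)
  simpa [ContinuousLinearMap.adjoint_inner_left] using this

theorem mul_right (a : H →L[ℂ] H) (h : WT F f z) : WT F (fun i => f i * a) (z * a) := by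
  intro ξ η
  have := h (a ξ) η
  simpa using this

theorem star (h : WT F f z) : WT F (fun i => star (f i)) (star z) := by
  intro ξ η
  have h1 := h η ξ
  have h2 := (Complex.continuous_conj.tendsto _).comp h1
  have e : ∀ T : H →L[ℂ] H, ⟪η, (Star.star T) ξ⟫_ℂ = (starRingEnd ℂ) ⟪ξ, T η⟫_ℂ := by
    intro T
    rw [ContinuousLinearMap.star_eq_adjoint, ContinuousLinearMap.adjoint_inner_right,
      inner_conj_symm]
  rw [e]
  refine h2.congr fun i => ?_
  rw [e]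
  rfl

theorem map_iff {h : ι → H →L[ℂ] H} : WT (F.map h) id z ↔ WT F h z := by
  constructor
  · intro k ξ η
    have := k ξ η
    rwa [tendsto_map'_iff] at this
  · intro k ξ η
    rw [tendsto_map'_iff]
    exact k ξ η

theorem norm_le [F.NeBot] {C : ℝ} (hC : 0 ≤ C) (hf : ∀ i, ‖f i‖ ≤ C) (h : WT F f z) : ‖z‖ ≤ C := by
  refine z.opNorm_le_bound hC fun ξ => ?_
  have key : ∀ η : H, ‖⟪η, z ξ⟫_ℂ‖ ≤ ‖η‖ * (C * ‖ξ‖) := by
    intro η
    refine le_of_tendsto (h ξ η).norm (Eventually.of_forall fun i => ?_)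
    calc ‖⟪η, f i ξ⟫_ℂ‖ ≤ ‖η‖ * ‖f i ξ‖ := norm_inner_le_norm _ _
      _ ≤ ‖η‖ * (C * ‖ξ‖) := mul_le_mul_of_nonneg_left ((f i).le_of_opNorm_le (hf i) ξ)
          (norm_nonneg _)
  have h1 := key (z ξ)
  have h2 : ‖⟪z ξ, z ξ⟫_ℂ‖ = ‖z ξ‖ * ‖z ξ‖ := by
    rw [inner_self_eq_norm_sq_to_K]
    simp [sq]
  rw [h2] at h1
  by_cases h0 : ‖z ξ‖ = 0
  · rw [h0]
    positivity
  · exact le_of_mul_le_mul_left h1 (lt_of_le_of_ne (norm_nonneg _) (Ne.symm h0))

end WT

/-- existence of weak limits -/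
theorem exists_WT {ι : Type v} (U : Ultrafilter ι) (f : ι → H →L[ℂ] H) (C : ℝ)
    (hf : ∀ i, ‖f i‖ ≤ C) : ∃ z : H →L[ℂ] H, WT (U : Filter ι) f z := by
  obtain ⟨D, hD0, hD⟩ : ∃ D : ℝ, 0 < D ∧ ∀ n, ‖f n‖ ≤ D :=
    ⟨|C| + 1, by positivity, fun n => (hf n).trans ((le_abs_self C).trans (by linarith))⟩
  have hDc : (D : ℂ) ≠ 0 := by exact_mod_cast hD0.ne'
  let z : ι → H →L[ℂ] H := fun n => (D : ℂ)⁻¹ • f n
  have hz : ∀ n, ‖z n‖ ≤ 1 := by
    intro n
    show ‖(D : ℂ)⁻¹ • f n‖ ≤ 1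
    rw [norm_smul, norm_inv, Complex.norm_real, Real.norm_of_nonneg hD0.le]
    calc D⁻¹ * ‖f n‖ ≤ D⁻¹ * D :=
          mul_le_mul_of_nonneg_left (hD n) (inv_nonneg.2 hD0.le)
      _ = 1 := inv_mul_cancel₀ hD0.ne'
  let W : ι → (H →WOT[ℂ] H) := fun n => ContinuousLinearMapWOT.ofCLM (z n)
  have hW : ∀ n, ‖(W n).toCLM‖ ≤ 1 := hz
  have h1 : (U.map W : Ultrafilter (H →WOT[ℂ] H)) ≤
      𝓟 {T : H →WOT[ℂ] H | ‖T.toCLM‖ ≤ 1} := by
    rw [Ultrafilter.coe_map, le_principal_iff, mem_map]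
    exact Filter.univ_mem' hW
  obtain ⟨B, hB1, hB2⟩ := (isCompact_iff_ultrafilter_le_nhds.1
    Pool.Agent.Helper278.isCompact_wot_ball) _ h1
  have hlim : WT (U : Filter ι) z B.toCLM := by
    intro a c
    exact (ContinuousLinearMapWOT.le_nhds_iff_forall_inner_apply_le_nhds.1 hB2) a c
  refine ⟨(D : ℂ) • B.toCLM, ?_⟩
  have h2 := hlim.smul (D : ℂ)
  refine h2.congr' (Eventually.of_forall fun n => ?_)
  show (D : ℂ) • ((D : ℂ)⁻¹ • f n) = f n
  rw [smul_smul, mul_inv_cancel₀ hDc, one_smul]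

/-- closedness under weak limits -/
def WCl (K : Set (H →L[ℂ] H)) : Prop :=
  ∀ F : Filter (H →L[ℂ] H), F.NeBot → K ∈ F → ∀ z, WT F id z → z ∈ K

theorem WCl.mem {K : Set (H →L[ℂ] H)} (hK : WCl K) {ι : Type v} {F : Filter ι} [F.NeBot]
    {f : ι → H →L[ℂ] H} {z : H →L[ℂ] H} (hf : ∀ᶠ i in F, f i ∈ K) (h : WT F f z) : z ∈ K :=
  hK (F.map f) inferInstance hf z (WT.map_iff.2 h)

/-- von Neumann algebras are weakly closed -/
theorem wcl_vn (M : VonNeumannAlgebra H) : WCl (M : Set (H →L[ℂ] H)) := by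
  intro F hF hMF z hz
  show z ∈ M
  rw [← M.commutant_commutant, VonNeumannAlgebra.mem_commutant_iff]
  intro g hg
  rw [VonNeumannAlgebra.mem_commutant_iff] at hg
  have h1 := hz.mul_left g
  have h2 := hz.mul_right g
  refine h1.unique (h2.congr' ?_)
  filter_upwards [hMF] with x hx
  exact hg x hx

theorem mem_vn_of_WT (M : VonNeumannAlgebra H) {ι : Type v} {F : Filter ι} [F.NeBot]
    {f : ι → H →L[ℂ] H} {z : H →L[ℂ] H} (hf : ∀ i, f i ∈ M) (h : WT F f z) : z ∈ M :=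
  (wcl_vn M).mem (Eventually.of_forall hf) h

end Pool.Agent.Y502.WD
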