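import Mathlib
import Pool.Agent.Y502.WD.Lim

/-!
Normal conditional expectations of von Neumann algebras.
-/

set_option autoImplicit false
set_option linter.unusedSectionVars false

open scoped InnerProductSpace Topology ComplexOrder
open Filter

noncomputable section

namespace Pool.Agent.Y502.WD

universe u v

/-- The restriction of `E` to `M` is a normal conditional expectation of `M` onto `N`: it is
linear, maps `M` into `N`, is unital, positive and `N`-bimodular, and it is normal, that is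
continuous for the ultraweak topologies (each functional `x ↦ ⟪η, E x ξ⟫` on `M` is given by two
square summable sequences of vectors). -/
structure IsNCE {H : Type u} [NormedAddCommGroup H] [InnerProductSpace ℂ H] [CompleteSpace H]
    (N M : VonNeumannAlgebra H) (E : (H →L[ℂ] H) → (H →L[ℂ] H)) : Prop where
  add : ∀ x ∈ M, ∀ y ∈ M, E (x + y) = E x + E y
  smul : ∀ c : ℂ, ∀ x ∈ M, E (c • x) = c • E x
  mem : ∀ x ∈ M, E x ∈ N
  one : E 1 = 1
  pos : ∀ x ∈ M, (E (star x * x)).IsPositive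
  bimod : ∀ a ∈ N, ∀ b ∈ N, ∀ x ∈ M, E (a * x * b) = a * E x * b
  normal : ∀ ξ η : H, ∃ α β : ℕ → H, Summable (fun k => ‖α k‖ ^ 2) ∧
    Summable (fun k => ‖β k‖ ^ 2) ∧ ∀ x ∈ M, ⟪η, E x ξ⟫_ℂ = ∑' k, ⟪β k, x (α k)⟫_ℂ

variable {H : Type u} [NormedAddCommGroup H] [InnerProductSpace ℂ H] [CompleteSpace H]

namespace IsNCE

variable {N M : VonNeumannAlgebra H} {E : (H →L[ℂ] H) → (H →L[ℂ] H)}

theorem zero (hE : IsNCE N M E) : E 0 = 0 := by
  have h := hE.smul 0 0 (zero_mem M)
  simpa using h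

theorem sub (hE : IsNCE N M E) {x y : H →L[ℂ] H} (hx : x ∈ M) (hy : y ∈ M) :
    E (x - y) = E x - E y := by
  have h := hE.add (x - y) (sub_mem hx hy) y hy
  rw [sub_add_cancel] at h
  rw [h, add_sub_cancel_right]

theorem sum (hE : IsNCE N M E) {ι : Type v} (s : Finset ι) (f : ι → H →L[ℂ] H)
    (hf : ∀ i ∈ s, f i ∈ M) : E (∑ i ∈ s, f i) = ∑ i ∈ s, E (f i) := by
  classical
  induction s using Finset.induction_on with
  | empty => simpa using hE.zero
  | insert a s ha ih =>
    rw [Finset.sum_insert ha, Finset.sum_insert ha,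
      hE.add _ (hf a (Finset.mem_insert_self _ _)) _
        (sum_mem fun i hi => hf i (Finset.mem_insert_of_mem hi)),
      ih fun i hi => hf i (Finset.mem_insert_of_mem hi)]

theorem left (hE : IsNCE N M E) {a x : H →L[ℂ] H} (ha : a ∈ N) (hx : x ∈ M) :
    E (a * x) = a * E x := by
  have h := hE.bimod a ha 1 (one_mem N) x hx
  simpa using h

theorem right (hE : IsNCE N M E) {a x : H →L[ℂ] H} (ha : a ∈ N) (hx : x ∈ M) :
    E (x * a) = E x * a := by
  have h := hE.bimod 1 (one_mem N) a ha x hx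
  simpa using h

theorem apply_of_mem (hE : IsNCE N M E) {a : H →L[ℂ] H} (ha : a ∈ N) : E a = a := by
  have h := hE.left ha (one_mem M)
  rw [mul_one, hE.one, mul_one] at h
  exact h

theorem nonneg (hE : IsNCE N M E) {x : H →L[ℂ] H} (hx : x ∈ M) : 0 ≤ E (star x * x) :=
  (ContinuousLinearMap.nonneg_iff_isPositive _).2 (hE.pos x hx)

/-- conditional expectations preserve weak limits of bounded families -/
theorem wt (hE : IsNCE N M E) {ι : Type v} {F : Filter ι} {f : ι → H →L[ℂ] H} {z : H →L[ℂ] H}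
    (hf : ∀ i, f i ∈ M) {C : ℝ} (hC : ∀ i, ‖f i‖ ≤ C) (hz : z ∈ M) (h : WT F f z) :
    WT F (fun i => E (f i)) (E z) := by
  intro ξ η
  obtain ⟨α, β, hα, hβ, hEq⟩ := hE.normal ξ η
  rw [hEq z hz]
  have h1 : ∀ i, ⟪η, E (f i) ξ⟫_ℂ = ∑' k, ⟪β k, f i (α k)⟫_ℂ := fun i => hEq (f i) (hf i)
  simp only [h1]
  refine tendsto_tsum_of_dominated_convergence
    (bound := fun k => |C| * (‖α k‖ ^ 2 + ‖β k‖ ^ 2)) ((hα.add hβ).mul_left _) ?_ ?_
  · intro k
    exact h (α k) (β k)
  · refine Eventually.of_forall fun i k => ?_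
    have h2 : ‖⟪β k, f i (α k)⟫_ℂ‖ ≤ ‖β k‖ * (|C| * ‖α k‖) :=
      (norm_inner_le_norm _ _).trans (mul_le_mul_of_nonneg_left
        ((f i).le_of_opNorm_le ((hC i).trans (le_abs_self C)) _) (norm_nonneg _))
    have h3 : ‖β k‖ * ‖α k‖ ≤ ‖α k‖ ^ 2 + ‖β k‖ ^ 2 := by
      nlinarith [sq_nonneg (‖α k‖ - ‖β k‖), sq_nonneg (‖α k‖), sq_nonneg (‖β k‖)]
    have h4 : 0 ≤ |C| := abs_nonneg C
    calc _ ≤ ‖β k‖ * (|C| * ‖α k‖) := h2
      _ = |C| * (‖β k‖ * ‖α k‖) := by ring
      _ ≤ _ := mul_le_mul_of_nonneg_left h3 h4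

/-- the Schwarz inequality for the averaging maps of `N` -/
theorem schwarz (hE : IsNCE N M E) (hNM : ∀ a ∈ N, a ∈ M) {ι : Type v} (s : Finset ι)
    (a : ι → H →L[ℂ] H) (ha : ∀ i ∈ s, a i ∈ N) (h1 : ∑ i ∈ s, star (a i) * a i = 1)
    {z : H →L[ℂ] H} (hz : z ∈ M) :
    E (star (∑ i ∈ s, star (a i) * z * a i) * (∑ i ∈ s, star (a i) * z * a i)) ≤
      ∑ i ∈ s, star (a i) * E (star z * z) * a i := by
  set T : H →L[ℂ] H := ∑ i ∈ s, star (a i) * z * a i with hT
  have hTM : T ∈ M := sum_mem fun i hi =>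
    mul_mem (mul_mem (star_mem (hNM _ (ha i hi))) hz) (hNM _ (ha i hi))
  have hid : ∑ i ∈ s, star (z * a i - a i * T) * (z * a i - a i * T) =
      ∑ i ∈ s, star (a i) * (star z * z) * a i - star T * T := by
    have e1 : ∀ i, star (z * a i - a i * T) * (z * a i - a i * T) =
        star (a i) * (star z * z) * a i - (star (a i) * star z * a i) * T
          - star T * (star (a i) * z * a i) + star T * (star (a i) * a i) * T := by
      intro i
      rw [star_sub, star_mul, star_mul]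
      noncomm_ring
    have e2 : star T = ∑ i ∈ s, star (a i) * star z * a i := by
      rw [hT, star_sum]
      refine Finset.sum_congr rfl fun i _ => ?_
      rw [star_mul, star_mul, star_star, mul_assoc]
    simp only [e1]
    rw [Finset.sum_add_distrib, Finset.sum_sub_distrib, Finset.sum_sub_distrib, ← Finset.sum_mul,
      ← Finset.mul_sum, ← hT, ← e2]
    have e3 : ∑ i ∈ s, star T * (star (a i) * a i) * T = star T * T := by
      rw [← Finset.sum_mul, ← Finset.mul_sum, h1, mul_one]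
    rw [e3]
    abel
  have h2 : 0 ≤ E (∑ i ∈ s, star (z * a i - a i * T) * (z * a i - a i * T)) := by
    have hm : ∀ i ∈ s, z * a i - a i * T ∈ M := fun i hi =>
      sub_mem (mul_mem hz (hNM _ (ha i hi))) (mul_mem (hNM _ (ha i hi)) hTM)
    rw [hE.sum s _ fun i hi => mul_mem (star_mem (hm i hi)) (hm i hi)]
    exact Finset.sum_nonneg fun i hi => hE.nonneg (hm i hi)
  have hzz : star z * z ∈ M := mul_mem (star_mem hz) hz
  have hmm : ∀ i ∈ s, star (a i) * (star z * z) * a i ∈ M := fun i hi =>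
    mul_mem (mul_mem (star_mem (hNM _ (ha i hi))) hzz) (hNM _ (ha i hi))
  rw [hid, hE.sub (sum_mem hmm) (mul_mem (star_mem hTM) hTM), hE.sum s _ hmm] at h2
  have h3 : ∑ i ∈ s, E (star (a i) * (star z * z) * a i) =
      ∑ i ∈ s, star (a i) * E (star z * z) * a i :=
    Finset.sum_congr rfl fun i hi => hE.bimod _ (star_mem (ha i hi)) _ (ha i hi) _ hzz
  rw [h3] at h2
  exact sub_nonneg.1 h2

end IsNCE

end Pool.Agent.Y502.WD
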