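import Mathlib
import Pool.Agent.Y502.WD.NCE

/-!
The norm minimisation argument.
-/

set_option autoImplicit false
set_option linter.unusedSectionVars false

open scoped InnerProductSpace Topology ComplexOrder
open Filter

noncomputable section

namespace Pool.Agent.Y502.WD

universe u v

variable {H : Type u} [NormedAddCommGroup H] [InnerProductSpace ℂ H] [CompleteSpace H]

theorem form_of_le {A B : H →L[ℂ] H} (h : A ≤ B) (ξ : H) :
    (⟪ξ, A ξ⟫_ℂ).re ≤ (⟪ξ, B ξ⟫_ℂ).re := by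
  have h1 : (B - A).IsPositive := h
  have h2 := h1.re_inner_nonneg_right ξ
  have h3 : RCLike.re ⟪ξ, (B - A) ξ⟫_ℂ = (⟪ξ, B ξ⟫_ℂ).re - (⟪ξ, A ξ⟫_ℂ).re := by
    rw [ContinuousLinearMap.sub_apply, inner_sub_right]
    simp
  rw [h3] at h2
  linarith

theorem le_of_form {A B : H →L[ℂ] H} (hA : IsSelfAdjoint A) (hB : IsSelfAdjoint B)
    (h : ∀ ξ, (⟪ξ, A ξ⟫_ℂ).re ≤ (⟪ξ, B ξ⟫_ℂ).re) : A ≤ B := by
  have h1 : (B - A).IsPositive := by
    rw [ContinuousLinearMap.isPositive_def]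
    refine ⟨(hB.sub hA).isSymmetric, fun ξ => ?_⟩
    have h2 : (B - A).reApplyInnerSelf ξ = (⟪ξ, B ξ⟫_ℂ).re - (⟪ξ, A ξ⟫_ℂ).re := by
      rw [ContinuousLinearMap.reApplyInnerSelf_apply, inner_re_symm,
        ContinuousLinearMap.sub_apply, inner_sub_right]
      simp
    rw [h2]
    have := h ξ
    linarith
  exact h1

theorem isSelfAdjoint_real (c : ℝ) : IsSelfAdjoint ((c : ℂ) • (1 : H →L[ℂ] H)) := by
  rw [isSelfAdjoint_iff, star_smul, star_one]
  simp

theorem form_real (c : ℝ) (ξ : H) :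
    (⟪ξ, ((c : ℂ) • (1 : H →L[ℂ] H)) ξ⟫_ℂ).re = c * ‖ξ‖ ^ 2 := by
  rw [ContinuousLinearMap.smul_apply, ContinuousLinearMap.one_apply, inner_smul_right,
    inner_self_eq_norm_sq_to_K, Complex.re_ofReal_mul]
  norm_cast

namespace IsNCE

variable {N M : VonNeumannAlgebra H} {E : (H →L[ℂ] H) → (H →L[ℂ] H)}

theorem sa (hE : IsNCE N M E) {x : H →L[ℂ] H} (hx : x ∈ M) : IsSelfAdjoint (E (star x * x)) :=
  (hE.pos x hx).isSelfAdjoint

/-- lower semicontinuity of `z ↦ E (z* z)` -/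
theorem lsc (hE : IsNCE N M E) {ι : Type v} {F : Filter ι} [F.NeBot] {f : ι → H →L[ℂ] H}
    {z : H →L[ℂ] H} (hf : ∀ i, f i ∈ M) {C : ℝ} (hC : ∀ i, ‖f i‖ ≤ C) (h : WT F f z) (ξ : H)
    {h' : ι → ℝ} {c : ℝ} (hle : ∀ i, (⟪ξ, E (star (f i) * f i) ξ⟫_ℂ).re ≤ h' i)
    (hlim : Tendsto h' F (𝓝 c)) : (⟪ξ, E (star z * z) ξ⟫_ℂ).re ≤ c := by
  have hz : z ∈ M := mem_vn_of_WT M hf h
  have hC0 : ∀ i, ‖star (f i) * z‖ ≤ C * ‖z‖ := fun i => by
    refine (norm_mul_le _ _).trans ?_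
    rw [norm_star]
    exact mul_le_mul_of_nonneg_right (hC i) (norm_nonneg _)
  have hC1 : ∀ i, ‖star z * f i‖ ≤ ‖z‖ * C := fun i => by
    refine (norm_mul_le _ _).trans ?_
    rw [norm_star]
    exact mul_le_mul_of_nonneg_left (hC i) (norm_nonneg _)
  have k1 := hE.wt (fun i => mul_mem (star_mem (hf i)) hz) hC0 (mul_mem (star_mem hz) hz)
    (h.star.mul_right z)
  have k2 := hE.wt (fun i => mul_mem (star_mem hz) (hf i)) hC1 (mul_mem (star_mem hz) hz)
    (h.mul_left (star z))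
  have l1 := (Complex.continuous_re.tendsto _).comp (k1 ξ ξ)
  have l2 := (Complex.continuous_re.tendsto _).comp (k2 ξ ξ)
  have l3 := (l1.add l2).sub (tendsto_const_nhds (x := (⟪ξ, E (star z * z) ξ⟫_ℂ).re))
  have e : (⟪ξ, E (star z * z) ξ⟫_ℂ).re + (⟪ξ, E (star z * z) ξ⟫_ℂ).re -
      (⟪ξ, E (star z * z) ξ⟫_ℂ).re = (⟪ξ, E (star z * z) ξ⟫_ℂ).re := by ring
  rw [e] at l3
  refine le_of_tendsto_of_tendsto' l3 hlim fun i => ?_
  have p1 : f i - z ∈ M := sub_mem (hf i) hz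
  have p2 := form_of_le (hE.nonneg p1) ξ
  have p3 : star (f i - z) * (f i - z) =
      star (f i) * f i - star (f i) * z - star z * f i + star z * z := by
    rw [star_sub]
    noncomm_ring
  have q1 : star (f i) * f i ∈ M := mul_mem (star_mem (hf i)) (hf i)
  have q2 : star (f i) * z ∈ M := mul_mem (star_mem (hf i)) hz
  have q3 : star z * f i ∈ M := mul_mem (star_mem hz) (hf i)
  have q4 : star z * z ∈ M := mul_mem (star_mem hz) hz
  rw [p3, hE.add _ (sub_mem (sub_mem q1 q2) q3) _ q4, hE.sub (sub_mem q1 q2) q3,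
    hE.sub q1 q2] at p2
  simp only [ContinuousLinearMap.zero_apply, inner_zero_right, Complex.zero_re,
    ContinuousLinearMap.add_apply, ContinuousLinearMap.sub_apply, inner_add_right,
    inner_sub_right, Complex.add_re, Complex.sub_re] at p2
  have := hle i
  simp only [Function.comp_apply]
  linarith

end IsNCE

/-- The norm minimisation argument. -/
theorem core [Nontrivial H] {N M : VonNeumannAlgebra H} {E : (H →L[ℂ] H) → (H →L[ℂ] H)}
    (hE : IsNCE N M E) (hNM : ∀ a ∈ N, a ∈ M) (hF : ∀ x ∈ M, E (star x * x) = 0 → x = 0)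
    (L : Set (H →L[ℂ] H)) (hLM : ∀ z ∈ L, z ∈ M) (hne : L.Nonempty) (hconv : Convex ℝ L) (C : ℝ)
    (hbd : ∀ z ∈ L, ‖z‖ ≤ C) (hcl : WCl L)
    (hinv : ∀ u ∈ unitary (H →L[ℂ] H), u ∈ N → ∀ z ∈ L, u * z * star u ∈ L)
    (hred : ∀ z ∈ L, ∀ c : ℝ, E (star z * z) ≤ (c : ℂ) • 1 → E (star z * z) ≠ (c : ℂ) • 1 →
      ∃ z' ∈ L, ∃ c' < c, E (star z' * z') ≤ (c' : ℂ) • 1) :
    ∃ z ∈ L, ∀ u ∈ unitary (H →L[ℂ] H), u ∈ N → u * z * star u = z := by
  set S : Set ℝ := {c | ∃ z ∈ L, E (star z * z) ≤ (c : ℂ) • 1} with hS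
  have hSne : S.Nonempty := by
    obtain ⟨z, hz⟩ := hne
    refine ⟨‖E (star z * z)‖, z, hz, ?_⟩
    have h1 := (hE.sa (hLM z hz)).le_algebraMap_norm_self
    rw [Algebra.algebraMap_eq_smul_one, ← Complex.coe_smul] at h1
    exact h1
  have hSbd : BddBelow S := by
    refine ⟨0, ?_⟩
    rintro c ⟨z, hz, hc⟩
    obtain ⟨ξ, hξ⟩ := exists_ne (0 : H)
    have h1 := form_of_le ((hE.nonneg (hLM z hz)).trans hc) ξ
    rw [form_real] at h1
    simp only [ContinuousLinearMap.zero_apply, inner_zero_right, Complex.zero_re] at h1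
    have h2 : 0 < ‖ξ‖ ^ 2 := by
      have := norm_pos_iff.2 hξ
      positivity
    exact nonneg_of_mul_nonneg_left h1 h2
  set c0 := sInf S with hc0
  have hseq : ∀ n : ℕ, ∃ z ∈ L, E (star z * z) ≤ ((c0 + 1 / ((n : ℝ) + 1) : ℝ) : ℂ) • 1 := by
    intro n
    obtain ⟨c, ⟨z, hz, hc⟩, hlt⟩ := exists_lt_of_csInf_lt hSne
      (show sInf S < c0 + 1 / ((n : ℝ) + 1) from lt_add_of_pos_right _ (by positivity))
    refine ⟨z, hz, hc.trans (le_of_form (isSelfAdjoint_real _) (isSelfAdjoint_real _) fun ξ => ?_)⟩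
    rw [form_real, form_real]
    exact mul_le_mul_of_nonneg_right hlt.le (sq_nonneg _)
  choose f hfL hf using hseq
  obtain ⟨z, hz⟩ := exists_WT (hyperfilter ℕ) f C fun n => hbd _ (hfL n)
  have hzL : z ∈ L := hcl.mem (Eventually.of_forall hfL) hz
  have hzM := hLM z hzL
  have hle : E (star z * z) ≤ (c0 : ℂ) • 1 := by
    refine le_of_form (hE.sa hzM) (isSelfAdjoint_real _) fun ξ => ?_
    rw [form_real]
    refine hE.lsc (fun n => hLM _ (hfL n)) (fun n => hbd _ (hfL n)) hz ξ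
      (h' := fun n : ℕ => (c0 + 1 / ((n : ℝ) + 1)) * ‖ξ‖ ^ 2) (fun n => ?_) ?_
    · have := form_of_le (hf n) ξ
      rwa [form_real] at this
    · have h1 : Tendsto (fun n : ℕ => (c0 + 1 / ((n : ℝ) + 1)) * ‖ξ‖ ^ 2) atTop
          (𝓝 ((c0 + 0) * ‖ξ‖ ^ 2)) :=
        (tendsto_const_nhds.add tendsto_one_div_add_atTop_nhds_zero_nat).mul_const _
      rw [add_zero] at h1
      exact h1.mono_left (Nat.hyperfilter_le_atTop)
  have key : ∀ w ∈ L, E (star w * w) ≤ (c0 : ℂ) • 1 → E (star w * w) = (c0 : ℂ) • 1 := by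
    intro w hw hwle
    by_contra hne'
    obtain ⟨w', hw', c', hc', hle'⟩ := hred w hw c0 hwle hne'
    exact absurd (csInf_le hSbd ⟨w', hw', hle'⟩) (not_le.2 hc')
  have hzE := key z hzL hle
  refine ⟨z, hzL, fun u hu huN => ?_⟩
  have huu : star u * u = 1 := (Unitary.mem_iff.1 hu).1
  have huu' : u * star u = 1 := (Unitary.mem_iff.1 hu).2
  set z' := u * z * star u with hz'
  have hz'L : z' ∈ L := hinv u hu huN z hzL
  have hz'M := hLM _ hz'L
  have hz'E : E (star z' * z') = (c0 : ℂ) • 1 := by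
    have e1 : star z' * z' = u * (star z * z) * star u := by
      rw [hz', star_mul, star_mul, star_star]
      calc u * (star z * star u) * (u * z * star u) = u * (star z * (star u * u) * z) * star u := by
            noncomm_ring
        _ = _ := by rw [huu, mul_one]
    rw [e1, hE.bimod u huN (star u) (star_mem huN) _ (mul_mem (star_mem hzM) hzM), hzE,
      mul_smul_comm, mul_one, smul_mul_assoc, huu']
  set y : H →L[ℂ] H := (1 / 2 : ℝ) • z + (1 / 2 : ℝ) • z' with hy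
  have hyL : y ∈ L := hconv hzL hz'L (by norm_num) (by norm_num) (by norm_num)
  have hyM := hLM _ hyL
  have hsub : z - z' ∈ M := sub_mem hzM hz'M
  have hy' : y = (1 / 2 : ℂ) • (z + z') := by
    have h1 : ∀ A : H →L[ℂ] H, (1 / 2 : ℝ) • A = (1 / 2 : ℂ) • A := by
      intro A
      rw [← Complex.coe_smul]
      norm_num
    rw [hy, h1, h1, smul_add]
  have e2 : star y * y = (1 / 2 : ℂ) • (star z * z) + (1 / 2 : ℂ) • (star z' * z') -
      (1 / 4 : ℂ) • (star (z - z') * (z - z')) := by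
    rw [hy', star_smul, star_add, star_sub]
    simp only [smul_mul_smul_comm]
    have h1 : star (1 / 2 : ℂ) * (1 / 2) = 1 / 4 := by
      norm_num
    rw [h1]
    have h2 : ∀ A : H →L[ℂ] H, (1 / 2 : ℂ) • A = (1 / 4 : ℂ) • (A + A) := by
      intro A
      rw [← two_smul ℂ A, smul_smul]
      norm_num
    rw [h2, h2, ← smul_add, ← smul_sub]
    congr 1
    noncomm_ring
  have m1 : star z * z ∈ M := mul_mem (star_mem hzM) hzM
  have m2 : star z' * z' ∈ M := mul_mem (star_mem hz'M) hz'M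
  have m3 : star (z - z') * (z - z') ∈ M := mul_mem (star_mem hsub) hsub
  have e3 : E (star y * y) = (c0 : ℂ) • 1 - (1 / 4 : ℂ) • E (star (z - z') * (z - z')) := by
    have s1 : ∀ (c : ℂ) (A : H →L[ℂ] H), A ∈ M → c • A ∈ M := fun c A hA =>
      M.toStarSubalgebra.smul_mem hA c
    rw [e2, hE.sub (add_mem (s1 _ _ m1) (s1 _ _ m2)) (s1 _ _ m3), hE.add _ (s1 _ _ m1) _ (s1 _ _ m2),
      hE.smul _ _ m1, hE.smul _ _ m2, hE.smul _ _ m3, hzE, hz'E, ← add_smul]
    norm_num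
  have e4 : E (star y * y) ≤ (c0 : ℂ) • 1 := by
    refine le_of_form (hE.sa hyM) (isSelfAdjoint_real _) fun ξ => ?_
    have h0 : ⟪ξ, ((1 / 4 : ℂ) • E (star (z - z') * (z - z'))) ξ⟫_ℂ =
        (1 / 4 : ℂ) * ⟪ξ, E (star (z - z') * (z - z')) ξ⟫_ℂ := inner_smul_right _ _ _
    rw [e3, ContinuousLinearMap.sub_apply, inner_sub_right, Complex.sub_re, h0]
    have h1 := form_of_le (hE.nonneg hsub) ξ
    simp only [ContinuousLinearMap.zero_apply, inner_zero_right, Complex.zero_re] at h1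
    have h2 : ((1 / 4 : ℂ) * ⟪ξ, E (star (z - z') * (z - z')) ξ⟫_ℂ).re =
        1 / 4 * (⟪ξ, E (star (z - z') * (z - z')) ξ⟫_ℂ).re := by
      have : (1 / 4 : ℂ) = ((1 / 4 : ℝ) : ℂ) := by norm_num
      rw [this, Complex.re_ofReal_mul]
    rw [h2]
    linarith
  have e5 := key y hyL e4
  rw [e3] at e5
  have e6 : (1 / 4 : ℂ) • E (star (z - z') * (z - z')) = 0 := by
    have := sub_eq_self.1 e5
    exact this
  have e7 : E (star (z - z') * (z - z')) = 0 := by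
    rcases smul_eq_zero.1 e6 with h | h
    · norm_num at h
    · exact h
  exact (sub_eq_zero.1 (hF _ hsub e7)).symm

end Pool.Agent.Y502.WD
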