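import Mathlib

/-!
Extension of partial isometries to unitaries when there is room.
-/

set_option autoImplicit false
set_option linter.unusedSectionVars false
set_option linter.unusedSimpArgs false

noncomputable section

namespace Pool.Agent.Y502.WD

universe u v

section alg

variable {A : Type u} [Ring A] [StarRing A]

/-- the unitary extension -/
def extU (t g k : A) : A :=
  t + k * (g - star t * t) + (g - t * star t) * star k + k * star t * star k + (1 - g - k * star k)

variable {t g k : A}

theorem extU_aux (t g k t' k' : A) (h1 : t * (t' * t) = t) (h1' : t' * (t * t') = t')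
    (hgg : g * g = g) (hgt : g * t = t) (htg : t * g = t) (hgt' : g * t' = t') (htg' : t' * g = t')
    (hkk : k' * k = g) (hgk : g * k = 0) (hkg' : k' * g = 0) (hkg : k * g = k) (hgk' : g * k' = k')
    (htk : t * k = 0) (htk' : t' * k = 0) (hkt : k' * t = 0) (hkt' : k' * t' = 0) :
    (t' + (g - t' * t) * k' + k * (g - t * t') + k * t * k' + (1 - g - k * k')) *
      (t + k * (g - t' * t) + (g - t * t') * k' + k * t' * k' + (1 - g - k * k')) = 1 := by
  have a1 : ∀ x, t * (t' * (t * x)) = t * x := fun x => by
    rw [← mul_assoc t' t x, ← mul_assoc, h1]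
  have a1' : ∀ x, t' * (t * (t' * x)) = t' * x := fun x => by
    rw [← mul_assoc t t' x, ← mul_assoc, h1']
  have a2 : ∀ x, g * (g * x) = g * x := fun x => by rw [← mul_assoc, hgg]
  have a3 : ∀ x, g * (t * x) = t * x := fun x => by rw [← mul_assoc, hgt]
  have a4 : ∀ x, t * (g * x) = t * x := fun x => by rw [← mul_assoc, htg]
  have a5 : ∀ x, g * (t' * x) = t' * x := fun x => by rw [← mul_assoc, hgt']
  have a6 : ∀ x, t' * (g * x) = t' * x := fun x => by rw [← mul_assoc, htg']
  have a7 : ∀ x, k' * (k * x) = g * x := fun x => by rw [← mul_assoc, hkk]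
  have a8 : ∀ x, g * (k * x) = 0 := fun x => by rw [← mul_assoc, hgk, zero_mul]
  have a9 : ∀ x, k' * (g * x) = 0 := fun x => by rw [← mul_assoc, hkg', zero_mul]
  have a10 : ∀ x, k * (g * x) = k * x := fun x => by rw [← mul_assoc, hkg]
  have a11 : ∀ x, g * (k' * x) = k' * x := fun x => by rw [← mul_assoc, hgk']
  have a12 : ∀ x, t * (k * x) = 0 := fun x => by rw [← mul_assoc, htk, zero_mul]
  have a13 : ∀ x, t' * (k * x) = 0 := fun x => by rw [← mul_assoc, htk', zero_mul]
  have a14 : ∀ x, k' * (t * x) = 0 := fun x => by rw [← mul_assoc, hkt, zero_mul]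
  have a15 : ∀ x, k' * (t' * x) = 0 := fun x => by rw [← mul_assoc, hkt', zero_mul]
  have hk2 : k * k = 0 := by
    calc k * k = k * g * k := by rw [hkg]
      _ = 0 := by rw [mul_assoc, hgk, mul_zero]
  have hk2' : k' * k' = 0 := by
    calc k' * k' = k' * (g * k') := by rw [hgk']
      _ = 0 := by rw [← mul_assoc, hkg', zero_mul]
  have a16 : ∀ x, k * (k * x) = 0 := fun x => by rw [← mul_assoc, hk2, zero_mul]
  have a17 : ∀ x, k' * (k' * x) = 0 := fun x => by rw [← mul_assoc, hk2', zero_mul]
  simp only [mul_add, add_mul, mul_sub, sub_mul, mul_assoc, mul_one, one_mul, h1, h1', hgg, hgt,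
    htg, hgt', htg', hkk, hgk, hkg', hkg, hgk', htk, htk', hkt, hkt', a1, a1', a2, a3, a4, a5, a6,
    a7, a8, a9, a10, a11, a12, a13, a14, a15, a16, a17, hk2, hk2', mul_zero, zero_mul, sub_zero, zero_sub, add_zero,
    zero_add]
  abel

theorem extU_spec (h1 : t * (star t * t) = t) (hgs : star g = g)
    (hgg : g * g = g) (hgt : g * t = t) (htg : t * g = t)
    (hkk : star k * k = g) (hgk : g * k = 0) (hkg : k * g = k) :
    star (extU t g k) * extU t g k = 1 ∧ extU t g k * star (extU t g k) = 1 ∧
      extU t g k * (star t * t) = t := by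
  have h1' : star t * (t * star t) = star t := by
    have := congrArg star h1
    simpa [mul_assoc] using this
  have hgt' : g * star t = star t := by
    have := congrArg star htg
    simpa [hgs] using this
  have htg' : star t * g = star t := by
    have := congrArg star hgt
    simpa [hgs] using this
  have hkg' : star k * g = 0 := by
    have := congrArg star hgk
    simpa [hgs] using this
  have hgk' : g * star k = star k := by
    have := congrArg star hkg
    simpa [hgs] using this
  have htk : t * k = 0 := by
    rw [← htg, mul_assoc, hgk, mul_zero]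
  have htk' : star t * k = 0 := by
    rw [← htg', mul_assoc, hgk, mul_zero]
  have hkt : star k * t = 0 := by
    rw [← hgt, ← mul_assoc, hkg', zero_mul]
  have hkt' : star k * star t = 0 := by
    rw [← hgt', ← mul_assoc, hkg', zero_mul]
  have hstar : star (extU t g k) = star t + (g - star t * t) * star k + k * (g - t * star t) +
      k * t * star k + (1 - g - k * star k) := by
    unfold extU
    simp only [star_add, star_mul, star_sub, star_star, hgs, star_one, mul_assoc]
  refine ⟨?_, ?_, ?_⟩
  · rw [hstar]
    unfold extU
    exact extU_aux t g k (star t) (star k) h1 h1' hgg hgt htg hgt' htg' hkk hgk hkg' hkg hgk' htk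
      htk' hkt hkt'
  · rw [hstar]
    unfold extU
    have e1 : t + k * (g - star t * t) + (g - t * star t) * star k + k * star t * star k +
        (1 - g - k * star k) = t + (g - t * star t) * star k + k * (g - star t * t) +
        k * star t * star k + (1 - g - k * star k) := by abel
    have e2 : star t + (g - star t * t) * star k + k * (g - t * star t) + k * t * star k +
        (1 - g - k * star k) = star t + k * (g - t * star t) + (g - star t * t) * star k +
        k * t * star k + (1 - g - k * star k) := by abel
    rw [e1, e2]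
    exact extU_aux (star t) g k t (star k) h1' h1 hgg hgt' htg' hgt htg hkk hgk hkg' hkg hgk' htk'
      htk hkt' hkt
  · unfold extU
    have a3 : ∀ x, star k * (star t * x) = 0 := fun x => by rw [← mul_assoc, hkt', zero_mul]
    have a4 : ∀ x, g * (star t * x) = star t * x := fun x => by rw [← mul_assoc, hgt']
    have a1' : ∀ x, star t * (t * (star t * x)) = star t * x := fun x => by
      rw [← mul_assoc t (star t) x, ← mul_assoc, h1']
    simp only [add_mul, sub_mul, mul_assoc, one_mul, h1, a3, a4, a1', mul_zero, sub_self,
      add_zero, mul_sub]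

end alg

section frame

variable {A : Type u} [Ring A] [StarRing A] {v : ℕ → A}

theorem proj_mul_v (hv : ∀ i j, star (v i) * v j = if i = j then 1 else 0) (m a : ℕ) :
    (∑ i ∈ Finset.range m, v i * star (v i)) * v a = if a < m then v a else 0 := by
  rw [Finset.sum_mul]
  have : ∀ i ∈ Finset.range m, v i * star (v i) * v a = if i = a then v a else 0 := by
    intro i _
    rw [mul_assoc, hv]
    split_ifs with h
    · rw [mul_one, h]
    · rw [mul_zero]
  rw [Finset.sum_congr rfl this, Finset.sum_ite_eq']
  simp

theorem star_v_mul_proj (hv : ∀ i j, star (v i) * v j = if i = j then 1 else 0) (m a : ℕ) :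
    star (v a) * (∑ i ∈ Finset.range m, v i * star (v i)) = if a < m then star (v a) else 0 := by
  have h := congrArg star (proj_mul_v hv m a)
  rw [star_mul, star_sum] at h
  simp only [star_mul, star_star] at h
  rw [h]
  split_ifs <;> simp

/-- Unitary extension of finitely many isometries with orthogonal ranges. -/
theorem exists_unitary_ext (hv : ∀ i j, star (v i) * v j = if i = j then 1 else 0)
    (S : Subring A) (hS : ∀ x ∈ S, star x ∈ S) (hvS : ∀ i, v i ∈ S) (n m : ℕ) (hnm : n ≤ m)
    (w : Fin n → A) (hwS : ∀ i, w i ∈ S)
    (hw : ∀ i j, star (w i) * w j = if i = j then 1 else 0)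
    (hpw : ∀ i, (∑ j ∈ Finset.range m, v j * star (v j)) * w i = w i) :
    ∃ U ∈ S, star U * U = 1 ∧ U * star U = 1 ∧ ∀ i : Fin n, U * v i = w i := by
  classical
  set g : A := ∑ j ∈ Finset.range m, v j * star (v j) with hg
  set k : A := ∑ j ∈ Finset.range m, v (m + j) * star (v j) with hk
  set t : A := ∑ i : Fin n, w i * star (v i) with ht
  have hgS : g ∈ S := sum_mem fun i _ => mul_mem (hvS i) (hS _ (hvS i))
  have hkS : k ∈ S := sum_mem fun i _ => mul_mem (hvS _) (hS _ (hvS i))
  have htS : t ∈ S := sum_mem fun i _ => mul_mem (hwS _) (hS _ (hvS i))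
  have hgs : star g = g := by
    rw [hg, star_sum]
    refine Finset.sum_congr rfl fun i _ => ?_
    rw [star_mul, star_star]
  have hgv : ∀ a, g * v a = if a < m then v a else 0 := proj_mul_v hv m
  have hvg : ∀ a, star (v a) * g = if a < m then star (v a) else 0 := star_v_mul_proj hv m
  have hgg : g * g = g := by
    conv_lhs => rw [hg]
    rw [Finset.sum_mul, hg]
    refine Finset.sum_congr rfl fun i hi => ?_
    rw [mul_assoc, ← hg, hvg, if_pos (Finset.mem_range.1 hi)]
  have hgt : g * t = t := by
    rw [ht, Finset.mul_sum]
    refine Finset.sum_congr rfl fun i _ => ?_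
    rw [← mul_assoc, hpw]
  have htg : t * g = t := by
    rw [ht, Finset.sum_mul]
    refine Finset.sum_congr rfl fun i _ => ?_
    rw [mul_assoc, hvg, if_pos (i.2.trans_le hnm)]
  have hkv : ∀ a, k * v a = if a < m then v (m + a) else 0 := by
    intro a
    rw [hk, Finset.sum_mul]
    have : ∀ i ∈ Finset.range m, v (m + i) * star (v i) * v a = if i = a then v (m + a) else 0 := by
      intro i _
      rw [mul_assoc, hv]
      split_ifs with h
      · rw [mul_one, h]
      · rw [mul_zero]
    rw [Finset.sum_congr rfl this, Finset.sum_ite_eq']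
    simp
  have hkk : star k * k = g := by
    conv_lhs => rw [hk]
    rw [star_sum, Finset.sum_mul]
    conv_rhs => rw [hg]
    refine Finset.sum_congr rfl fun i hi => ?_
    rw [star_mul, star_star, Finset.mul_sum]
    have : ∀ j ∈ Finset.range m, v i * star (v (m + i)) * (v (m + j) * star (v j)) =
        if i = j then v i * star (v i) else 0 := by
      intro j _
      have e : v i * star (v (m + i)) * (v (m + j) * star (v j)) =
          v i * (star (v (m + i)) * v (m + j)) * star (v j) := by noncomm_ring
      rw [e, hv]
      by_cases h : i = j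
      · rw [if_pos (by rw [h]), if_pos h, mul_one, h]
      · rw [if_neg (by omega), if_neg h, mul_zero, zero_mul]
    rw [Finset.sum_congr rfl this, Finset.sum_ite_eq, if_pos hi]
  have hgk : g * k = 0 := by
    rw [hk, Finset.mul_sum]
    refine Finset.sum_eq_zero fun i _ => ?_
    rw [← mul_assoc, hgv, if_neg (by omega), zero_mul]
  have hkg : k * g = k := by
    rw [hk, Finset.sum_mul]
    refine Finset.sum_congr rfl fun i hi => ?_
    rw [mul_assoc, hvg, if_pos (Finset.mem_range.1 hi)]
  have htv : ∀ i : Fin n, t * v i = w i := by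
    intro i
    rw [ht, Finset.sum_mul]
    have : ∀ j ∈ Finset.univ, w j * star (v j) * v i = if j = i then w i else 0 := by
      intro j _
      rw [mul_assoc, hv]
      by_cases h : j = i
      · rw [if_pos (by rw [h]), if_pos h, mul_one, h]
      · rw [if_neg (fun h' => h (Fin.ext h')), if_neg h, mul_zero]
    rw [Finset.sum_congr rfl this, Finset.sum_ite_eq', if_pos (Finset.mem_univ _)]
  have htt : star t * t = ∑ i : Fin n, v i * star (v i) := by
    conv_lhs => rw [ht]
    rw [star_sum, Finset.sum_mul]
    refine Finset.sum_congr rfl fun i _ => ?_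
    rw [star_mul, star_star, Finset.mul_sum]
    have : ∀ j ∈ Finset.univ, v i * star (w i) * (w j * star (v j)) =
        if i = j then v i * star (v i) else 0 := by
      intro j _
      have e : v i * star (w i) * (w j * star (v j)) =
          v i * (star (w i) * w j) * star (v j) := by noncomm_ring
      rw [e, hw]
      by_cases h : i = j
      · rw [if_pos h, if_pos h, mul_one, h]
      · rw [if_neg h, if_neg h, mul_zero, zero_mul]
    rw [Finset.sum_congr rfl this, Finset.sum_ite_eq, if_pos (Finset.mem_univ _)]
  have httv : ∀ i : Fin n, star t * t * v i = v i := by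
    intro i
    rw [htt, Finset.sum_mul]
    have : ∀ j ∈ Finset.univ, v (j : Fin n) * star (v j) * v i = if j = i then v i else 0 := by
      intro j _
      rw [mul_assoc, hv]
      by_cases h : j = i
      · rw [if_pos (by rw [h]), if_pos h, mul_one, h]
      · rw [if_neg (fun h' => h (Fin.ext h')), if_neg h, mul_zero]
    rw [Finset.sum_congr rfl this, Finset.sum_ite_eq', if_pos (Finset.mem_univ _)]
  have h1 : t * (star t * t) = t := by
    rw [htt, Finset.mul_sum]
    conv_rhs => rw [ht]
    refine Finset.sum_congr rfl fun i _ => ?_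
    rw [← mul_assoc, htv]
  obtain ⟨s1, s2, s3⟩ := extU_spec h1 hgs hgg hgt htg hkk hgk hkg
  refine ⟨extU t g k, ?_, s1, s2, fun i => ?_⟩
  · unfold extU
    refine add_mem (add_mem (add_mem (add_mem htS (mul_mem hkS (sub_mem hgS
      (mul_mem (hS _ htS) htS)))) (mul_mem (sub_mem hgS (mul_mem htS (hS _ htS))) (hS _ hkS)))
      (mul_mem (mul_mem hkS (hS _ htS)) (hS _ hkS))) (sub_mem (sub_mem (one_mem S) hgS)
      (mul_mem hkS (hS _ hkS)))
  · calc extU t g k * v i = extU t g k * (star t * t * v i) := by rw [httv]
      _ = extU t g k * (star t * t) * v i := (mul_assoc _ _ _).symm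
      _ = w i := by rw [s3, htv]

end frame

end Pool.Agent.Y502.WD
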