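import Mathlib
import Pool.Agent.Y502.WD.Core
import Pool.Agent.Y502.WD.Ext
import Pool.Agent.H759R2.Kad.Props5

/-!
The block diagonal elements of an invariant weakly compact convex set.
-/

set_option autoImplicit false
set_option linter.unusedSectionVars false

open scoped InnerProductSpace Topology ComplexOrder
open Filter

noncomputable section

namespace Pool.Agent.Y502.WD

universe u v'

variable {H : Type u} [NormedAddCommGroup H] [InnerProductSpace ℂ H] [CompleteSpace H]

/-- bounded weakly closed convex sets which are invariant under the unitaries of `N` -/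
structure IsK (N : VonNeumannAlgebra H) (K : Set (H →L[ℂ] H)) (C : ℝ) : Prop where
  ne : K.Nonempty
  conv : Convex ℝ K
  bd : ∀ z ∈ K, ‖z‖ ≤ C
  cl : WCl K
  inv : ∀ u ∈ unitary (H →L[ℂ] H), u ∈ N → ∀ z ∈ K, u * z * star u ∈ K

theorem IsK.inv' {N : VonNeumannAlgebra H} {K : Set (H →L[ℂ] H)} {C : ℝ} (hK : IsK N K C)
    {u : H →L[ℂ] H} (h1 : star u * u = 1) (h2 : u * star u = 1) (hu : u ∈ N)
    {z : H →L[ℂ] H} (hz : z ∈ K) : star u * z * u ∈ K := by
  have h := hK.inv (star u) (Unitary.mem_iff.2 ⟨by rw [star_star]; exact h2,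
    by rw [star_star]; exact h1⟩) (star_mem hu) z hz
  rwa [star_star] at h

/-- commuting with the unitaries of `N` -/
theorem comm_of_unitary {N : VonNeumannAlgebra H} {z : H →L[ℂ] H}
    (h : ∀ u ∈ unitary (H →L[ℂ] H), u ∈ N → u * z * star u = z) :
    ∀ a ∈ N, a * z = z * a := by
  have hu : ∀ u : unitary (N.toStarSubalgebra), (u : N.toStarSubalgebra).1 * z =
      z * (u : N.toStarSubalgebra).1 := by
    intro u
    have h1 : star (u : N.toStarSubalgebra).1 * (u : N.toStarSubalgebra).1 = 1 :=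
      congrArg Subtype.val (Unitary.coe_star_mul_self u)
    have h2 : (u : N.toStarSubalgebra).1 * star (u : N.toStarSubalgebra).1 = 1 :=
      congrArg Subtype.val (Unitary.coe_mul_star_self u)
    have h3 := h _ (Unitary.mem_iff.2 ⟨h1, h2⟩) (u : N.toStarSubalgebra).2
    calc (u : N.toStarSubalgebra).1 * z = (u : N.toStarSubalgebra).1 * z *
          (star (u : N.toStarSubalgebra).1 * (u : N.toStarSubalgebra).1) := by rw [h1, mul_one]
      _ = (u : N.toStarSubalgebra).1 * z * star (u : N.toStarSubalgebra).1 *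
          (u : N.toStarSubalgebra).1 := by simp only [mul_assoc]
      _ = _ := by rw [h3]
  intro a ha
  obtain ⟨u, c, hc, -⟩ := CStarAlgebra.exists_sum_four_unitary
    (⟨a, ha⟩ : N.toStarSubalgebra)
  have h4 : a = ∑ i, c i • ((u i : N.toStarSubalgebra)).1 := by
    have := congrArg Subtype.val hc
    rw [AddSubmonoidClass.coe_finset_sum] at this
    exact this
  rw [h4, Finset.sum_mul, Finset.mul_sum]
  refine Finset.sum_congr rfl fun i _ => ?_
  rw [smul_mul_assoc, mul_smul_comm, hu]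

section frame

variable {N : VonNeumannAlgebra H} {K : Set (H →L[ℂ] H)} {C : ℝ} {v : ℕ → H →L[ℂ] H}

/-- The set of all `z` such that the block diagonal operator with blocks `z` belongs to `K`. -/
def LL (K : Set (H →L[ℂ] H)) (v : ℕ → H →L[ℂ] H) : Set (H →L[ℂ] H) :=
  {z | ∃ y ∈ K, ∀ a b : ℕ, star (v a) * y * v b = if a = b then z else 0}

/-- A frame of isometries. -/
structure Frame (N : VonNeumannAlgebra H) (v : ℕ → H →L[ℂ] H) : Prop where
  mem : ∀ i, v i ∈ N
  orth : ∀ i j, star (v i) * v j = if i = j then 1 else 0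
  span : ∀ x : H →L[ℂ] H, (∀ a b : ℕ, star (v a) * x * v b = 0) → x = 0

theorem exists_lim (hK : IsK N K C) {ι : Type v'} (U : Ultrafilter ι) (y : ι → H →L[ℂ] H)
    (hy : ∀ n, y n ∈ K) (D : ℕ → ℕ → H →L[ℂ] H)
    (hD : ∀ a b, WT (U : Filter ι) (fun n => star (v a) * y n * v b) (D a b)) :
    ∃ z ∈ K, WT (U : Filter ι) y z ∧ ∀ a b, star (v a) * z * v b = D a b := by
  obtain ⟨z, hz⟩ := exists_WT U y C fun n => hK.bd _ (hy n)
  exact ⟨z, hK.cl.mem (Eventually.of_forall hy) hz, hz,
    fun a b => ((hz.mul_left _).mul_right _).unique (hD a b)⟩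

theorem LL_conv (hK : IsK N K C) : Convex ℝ (LL K v) := by
  rintro z ⟨y, hy, hyz⟩ z' ⟨y', hy', hyz'⟩ s t hs ht hst
  refine ⟨s • y + t • y', hK.conv hy hy' hs ht hst, fun a b => ?_⟩
  rw [mul_add, add_mul, mul_smul_comm, smul_mul_assoc, mul_smul_comm, smul_mul_assoc, hyz, hyz']
  split_ifs <;> simp

theorem LL_mem (hv : Frame N v) {M : VonNeumannAlgebra H} (hNM : ∀ a ∈ N, a ∈ M)
    (hKM : ∀ y ∈ K, y ∈ M) {z : H →L[ℂ] H} (hz : z ∈ LL K v) : z ∈ M := by
  obtain ⟨y, hy, hyz⟩ := hz
  have h := hyz 0 0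
  rw [if_pos rfl] at h
  rw [← h]
  exact mul_mem (mul_mem (star_mem (hNM _ (hv.mem 0))) (hKM y hy)) (hNM _ (hv.mem 0))

theorem norm_isometry_le {s : H →L[ℂ] H} (h : star s * s = 1) : ‖s‖ ≤ 1 := by
  have h1 : ‖star s * s‖ = ‖s‖ * ‖s‖ := CStarRing.norm_star_mul_self
  rw [h] at h1
  have h2 : ‖(1 : H →L[ℂ] H)‖ ≤ 1 := ContinuousLinearMap.norm_id_le
  by_contra hc
  push Not at hc
  nlinarith

theorem LL_bd (hK : IsK N K C) (hv : Frame N v) {z : H →L[ℂ] H} (hz : z ∈ LL K v) : ‖z‖ ≤ C := by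
  obtain ⟨y, hy, hyz⟩ := hz
  have h := hyz 0 0
  rw [if_pos rfl] at h
  have h0 := hv.orth 0 0
  rw [if_pos rfl] at h0
  have h1 := norm_isometry_le h0
  rw [← h]
  calc ‖star (v 0) * y * v 0‖ ≤ ‖star (v 0)‖ * ‖y‖ * ‖v 0‖ :=
        (norm_mul_le _ _).trans (mul_le_mul_of_nonneg_right (norm_mul_le _ _) (norm_nonneg _))
    _ ≤ 1 * ‖y‖ * 1 := by
        rw [norm_star]
        gcongr
    _ = ‖y‖ := by ring
    _ ≤ C := hK.bd y hy

theorem LL_cl (hK : IsK N K C) : WCl (LL K v) := by
  classical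
  intro F hF hL z hz
  obtain ⟨k0, hk0⟩ := hK.ne
  have hch : ∀ x : H →L[ℂ] H, ∃ y ∈ K, x ∈ LL K v → ∀ a b : ℕ,
      star (v a) * y * v b = if a = b then x else 0 := by
    intro x
    by_cases h : x ∈ LL K v
    · obtain ⟨y, hy, hyx⟩ := h
      exact ⟨y, hy, fun _ => hyx⟩
    · exact ⟨k0, hk0, fun h' => absurd h' h⟩
  choose g hgK hg using hch
  set U := Ultrafilter.of F with hU
  have hUF : (U : Filter (H →L[ℂ] H)) ≤ F := Ultrafilter.of_le F
  have hz' : WT (U : Filter (H →L[ℂ] H)) id z := fun ξ η => (hz ξ η).mono_left hUF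
  obtain ⟨y, hy, -, hyz⟩ := exists_lim (v := v) hK U g hgK (fun a b => if a = b then z else 0) (by
    intro a b
    have h1 : ∀ᶠ x in (U : Filter (H →L[ℂ] H)), (if a = b then x else 0) =
        star (v a) * g x * v b := by
      filter_upwards [hUF hL] with x hx
      exact (hg x hx a b).symm
    refine WT.congr' ?_ h1
    by_cases hab : a = b
    · simp only [hab, if_true]
      exact hz'
    · simpa [hab] using WT.const (F := (U : Filter (H →L[ℂ] H))) (0 : H →L[ℂ] H))
  exact ⟨y, hy, hyz⟩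

theorem block_sum {m n : ℕ} (a : Fin m → H →L[ℂ] H) (X Z : H →L[ℂ] H)
    (hX : ∀ p q : ℕ, star (v p) * X * v q = if p = q then Z else 0) (b c : Fin n) :
    star (∑ i : Fin m, v (finProdFinEquiv (b, i)) * a i) * X *
      (∑ j : Fin m, v (finProdFinEquiv (c, j)) * a j) =
      if b = c then ∑ i, star (a i) * Z * a i else 0 := by
  classical
  rw [star_sum, Finset.sum_mul, Finset.sum_mul]
  have h1 : ∀ i : Fin m, star (v (finProdFinEquiv (b, i)) * a i) * X *
      (∑ j : Fin m, v (finProdFinEquiv (c, j)) * a j) =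
      if b = c then star (a i) * Z * a i else 0 := by
    intro i
    rw [Finset.mul_sum]
    have h2 : ∀ j : Fin m, star (v (finProdFinEquiv (b, i)) * a i) * X *
        (v (finProdFinEquiv (c, j)) * a j) =
        if i = j then (if b = c then star (a i) * Z * a i else 0) else 0 := by
      intro j
      have e : star (v (finProdFinEquiv (b, i)) * a i) * X * (v (finProdFinEquiv (c, j)) * a j) =
          star (a i) * (star (v (finProdFinEquiv (b, i))) * X * v (finProdFinEquiv (c, j))) *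
            a j := by
        rw [star_mul]
        noncomm_ring
      rw [e, hX]
      by_cases hij : i = j
      · by_cases hbc : b = c
        · rw [if_pos (by rw [hij, hbc]), if_pos hij, if_pos hbc, hij]
        · rw [if_neg, if_pos hij, if_neg hbc, mul_zero, zero_mul]
          intro h
          exact hbc (Prod.ext_iff.1 (finProdFinEquiv.injective (Fin.ext h))).1
      · rw [if_neg, if_neg hij, mul_zero, zero_mul]
        intro h
        exact hij (Prod.ext_iff.1 (finProdFinEquiv.injective (Fin.ext h))).2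
    rw [Finset.sum_congr rfl fun j _ => h2 j, Finset.sum_ite_eq, if_pos (Finset.mem_univ _)]
  rw [Finset.sum_congr rfl fun i _ => h1 i]
  split_ifs
  · rfl
  · simp

/-- extension of isometries to unitaries in `N` -/
theorem exists_unitary_N (hv : Frame N v) (n m : ℕ) (hnm : n ≤ m)
    (w : Fin n → H →L[ℂ] H) (hwN : ∀ i, w i ∈ N)
    (hw : ∀ i j, star (w i) * w j = if i = j then 1 else 0)
    (hpw : ∀ i, (∑ j ∈ Finset.range m, v j * star (v j)) * w i = w i) :
    ∃ U ∈ N, star U * U = 1 ∧ U * star U = 1 ∧ ∀ i : Fin n, U * v i = w i :=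
  exists_unitary_ext hv.orth N.toStarSubalgebra.toSubalgebra.toSubring
    (fun _ hx => star_mem (S := VonNeumannAlgebra H) hx) hv.mem n m hnm w hwN hw hpw

theorem LL_T_fin (hK : IsK N K C) (hv : Frame N v) {m : ℕ} (a : Fin m → H →L[ℂ] H)
    (ha : ∀ i, a i ∈ N) (ha1 : ∑ i, star (a i) * a i = 1) {z : H →L[ℂ] H} (hz : z ∈ LL K v) :
    ∑ i, star (a i) * z * a i ∈ LL K v := by
  classical
  obtain ⟨y, hy, hyz⟩ := hz
  have hU : ∀ n : ℕ, ∃ U ∈ N, star U * U = 1 ∧ U * star U = 1 ∧ ∀ b : Fin n,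
      U * v b = ∑ i : Fin m, v (finProdFinEquiv (b, i)) * a i := by
    intro n
    refine exists_unitary_N hv n (n * m + n) (by omega)
      (fun b => ∑ i : Fin m, v (finProdFinEquiv (b, i)) * a i)
      (fun b => sum_mem fun i _ => mul_mem (hv.mem _) (ha i)) ?_ ?_
    · intro b c
      have := block_sum (v := v) a 1 1 (by simpa using hv.orth) b c
      simpa [ha1] using this
    · intro b
      rw [Finset.mul_sum]
      refine Finset.sum_congr rfl fun i _ => ?_
      rw [← mul_assoc, proj_mul_v hv.orth, if_pos]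
      exact (finProdFinEquiv (b, i)).2.trans_le (by omega)
  choose U hUN hU1 hU2 hUv using hU
  obtain ⟨y', hy', -, hyz'⟩ := exists_lim (v := v) hK (hyperfilter ℕ)
    (fun n => star (U n) * y * U n) (fun n => hK.inv' (hU1 n) (hU2 n) (hUN n) hy)
    (fun p q => if p = q then ∑ i, star (a i) * z * a i else 0) (by
      intro p q
      refine WT.of_eventually_eq ?_
      refine Nat.hyperfilter_le_atTop ?_
      filter_upwards [eventually_gt_atTop (max p q)] with n hn
      have hp : p < n := (le_max_left _ _).trans_lt hn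
      have hq : q < n := (le_max_right _ _).trans_lt hn
      have h1 := hUv n ⟨p, hp⟩
      have h2 := hUv n ⟨q, hq⟩
      have h3 := block_sum (v := v) a y z hyz (⟨p, hp⟩ : Fin n) ⟨q, hq⟩
      rw [← h1, ← h2] at h3
      have h4 : star (v p) * (star (U n) * y * U n) * v q =
          star (U n * v p) * y * (U n * v q) := by
        rw [star_mul]
        noncomm_ring
      rw [h4]
      simp only [Fin.mk.injEq] at h3
      exact h3)
  exact ⟨y', hy', hyz'⟩

theorem LL_T (hK : IsK N K C) (hv : Frame N v) {ι : Type v'} [Fintype ι] (a : ι → H →L[ℂ] H)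
    (ha : ∀ i, a i ∈ N) (ha1 : ∑ i, star (a i) * a i = 1) {z : H →L[ℂ] H} (hz : z ∈ LL K v) :
    ∑ i, star (a i) * z * a i ∈ LL K v := by
  let e := (Fintype.equivFin ι).symm
  have h1 : ∑ i, star (a (e i)) * a (e i) = 1 := by
    rw [← ha1]
    exact Equiv.sum_comp e fun i => star (a i) * a i
  have h2 := LL_T_fin hK hv (fun i => a (e i)) (fun i => ha _) h1 hz
  rwa [Equiv.sum_comp e fun i => star (a i) * z * a i] at h2

theorem LL_inv (hK : IsK N K C) (hv : Frame N v) {u z : H →L[ℂ] H}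
    (hu : u ∈ unitary (H →L[ℂ] H)) (huN : u ∈ N) (hz : z ∈ LL K v) : u * z * star u ∈ LL K v := by
  have h := LL_T hK hv (fun _ : Unit => star u) (fun _ => star_mem huN)
    (by simpa using (Unitary.mem_iff.1 hu).2) hz
  simpa using h

end frame

end Pool.Agent.Y502.WD
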