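import Mathlib
import Pool.Agent.Y502.WD.Inf

/-!
Existence of block diagonal elements, and invariant block diagonal elements.
-/

set_option autoImplicit false
set_option linter.unusedSectionVars false

open scoped InnerProductSpace Topology ComplexOrder
open Filter

noncomputable section

namespace Pool.Agent.Y502.WD

universe u v'

variable {H : Type u} [NormedAddCommGroup H] [InnerProductSpace ℂ H] [CompleteSpace H]
variable {N : VonNeumannAlgebra H} {K : Set (H →L[ℂ] H)} {C : ℝ} {v : ℕ → H →L[ℂ] H}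

/-- sign change -/
def sgD (v : ℕ → H →L[ℂ] H) (n : ℕ) : H →L[ℂ] H := 1 - (2 : ℂ) • (v n * star (v n))

/-- the sequence of partial averages over sign changes -/
def sgS (v : ℕ → H →L[ℂ] H) (z : H →L[ℂ] H) : ℕ → H →L[ℂ] H
  | 0 => z
  | n + 1 => (1 / 2 : ℝ) • sgS v z n + (1 / 2 : ℝ) • (sgD v n * sgS v z n * sgD v n)

theorem sgD_star (n : ℕ) : star (sgD v n) = sgD v n := by
  unfold sgD
  rw [star_sub, star_one, star_smul, star_mul, star_star]
  simp

theorem sgD_sq (hv : Frame N v) (n : ℕ) : sgD v n * sgD v n = 1 := by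
  have h0 := hv.orth n n
  rw [if_pos rfl] at h0
  have h1 : v n * star (v n) * (v n * star (v n)) = v n * star (v n) := by
    calc v n * star (v n) * (v n * star (v n)) = v n * (star (v n) * v n) * star (v n) := by
          noncomm_ring
      _ = _ := by rw [h0, mul_one]
  unfold sgD
  rw [sub_mul, mul_sub, mul_sub, smul_mul_smul_comm, h1, one_mul, one_mul, mul_one]
  have h2 : ((2 : ℂ) * 2) • (v n * star (v n)) = (2 : ℂ) • (v n * star (v n)) +
      (2 : ℂ) • (v n * star (v n)) := by
    rw [← add_smul]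
    norm_num
  rw [h2]
  abel

theorem sgD_mem (hv : Frame N v) (n : ℕ) : sgD v n ∈ N :=
  sub_mem (one_mem N) (N.toStarSubalgebra.smul_mem (mul_mem (hv.mem n) (star_mem (hv.mem n))) _)

theorem sgD_mul_v (hv : Frame N v) (n a : ℕ) :
    sgD v n * v a = if a = n then -v a else v a := by
  unfold sgD
  rw [sub_mul, one_mul, smul_mul_assoc, mul_assoc, hv.orth]
  by_cases h : n = a
  · rw [if_pos h, if_pos h.symm, mul_one, h, two_smul]
    abel
  · rw [if_neg h, if_neg (Ne.symm h), mul_zero, smul_zero, sub_zero]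

theorem star_v_mul_sgD (hv : Frame N v) (n a : ℕ) :
    star (v a) * sgD v n = if a = n then -star (v a) else star (v a) := by
  have h := congrArg star (sgD_mul_v hv n a)
  rw [star_mul, sgD_star] at h
  rw [h]
  split_ifs <;> simp

theorem sgS_mem (hK : IsK N K C) (hv : Frame N v) {z : H →L[ℂ] H} (hz : z ∈ K) (n : ℕ) :
    sgS v z n ∈ K := by
  induction n with
  | zero => exact hz
  | succ n ih =>
    have h1 := hK.inv' (u := sgD v n) (by rw [sgD_star]; exact sgD_sq hv n)
      (by rw [sgD_star]; exact sgD_sq hv n) (sgD_mem hv n) ih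
    rw [sgD_star] at h1
    exact hK.conv ih h1 (by norm_num) (by norm_num) (by norm_num)

theorem sgS_block (hv : Frame N v) (z : H →L[ℂ] H) (n : ℕ) :
    ∀ a b : ℕ, a ≠ b → a < n → star (v a) * sgS v z n * v b = 0 := by
  induction n with
  | zero => intro a b _ h; omega
  | succ n ih =>
    intro a b hab han
    have e : star (v a) * sgS v z (n + 1) * v b = (1 / 2 : ℝ) • (star (v a) * sgS v z n * v b) +
        (1 / 2 : ℝ) • ((star (v a) * sgD v n) * sgS v z n * (sgD v n * v b)) := by
      show star (v a) * ((1 / 2 : ℝ) • sgS v z n + (1 / 2 : ℝ) •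
        (sgD v n * sgS v z n * sgD v n)) * v b = _
      rw [mul_add, add_mul, mul_smul_comm, smul_mul_assoc, mul_smul_comm, smul_mul_assoc]
      simp only [mul_assoc]
    rw [e, sgD_mul_v hv, star_v_mul_sgD hv]
    by_cases ha : a = n
    · have hb : b ≠ n := fun h => hab (ha.trans h.symm)
      rw [if_pos ha, if_neg hb, neg_mul, neg_mul, smul_neg]
      abel
    · have h1 := ih a b hab (by omega)
      rw [if_neg ha]
      by_cases hb : b = n
      · rw [if_pos hb, mul_neg, h1]
        simp
      · rw [if_neg hb, h1]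
        simp

/-- `K` contains block diagonal operators -/
theorem exists_blockdiag (hK : IsK N K C) (hv : Frame N v) :
    ∃ y ∈ K, ∀ a b : ℕ, a ≠ b → star (v a) * y * v b = 0 := by
  obtain ⟨z, hz⟩ := hK.ne
  obtain ⟨y, hy⟩ := exists_WT (hyperfilter ℕ) (sgS v z) C fun n => hK.bd _ (sgS_mem hK hv hz n)
  refine ⟨y, hK.cl.mem (Eventually.of_forall (sgS_mem hK hv hz)) hy, fun a b hab => ?_⟩
  refine ((hy.mul_left (star (v a))).mul_right (v b)).unique (WT.of_eventually_eq ?_)
  refine Nat.hyperfilter_le_atTop ?_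
  filter_upwards [eventually_gt_atTop a] with n hn
  exact sgS_block hv z n a b hab hn

theorem exists_cyc (hv : Frame N v) (m : ℕ) (j : Fin (m + 1)) :
    ∃ U ∈ N, star U * U = 1 ∧ U * star U = 1 ∧ ∀ b : Fin (m + 1), U * v b = v (b + j : Fin (m + 1)) := by
  refine exists_unitary_N hv (m + 1) (m + 1) le_rfl (fun b => v (b + j : Fin (m + 1)))
    (fun b => hv.mem _) ?_ ?_
  · intro b c
    rw [hv.orth]
    by_cases h : b = c
    · rw [if_pos (by rw [h]), if_pos h]
    · rw [if_neg, if_neg h]
      intro h'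
      exact h (add_right_cancel (Fin.ext h'))
  · intro b
    rw [proj_mul_v hv.orth, if_pos (Fin.is_lt _)]

/-- block diagonal elements with equal blocks exist -/
theorem LL_ne (hK : IsK N K C) (hv : Frame N v) : (LL K v).Nonempty := by
  classical
  obtain ⟨y, hy, hyd⟩ := exists_blockdiag hK hv
  have h1 : ∀ (m : ℕ) (j : Fin (m + 1)), ∃ U ∈ N, star U * U = 1 ∧ U * star U = 1 ∧
      ∀ b : Fin (m + 1), U * v b = v (b + j : Fin (m + 1)) := fun m j => exists_cyc hv m j
  choose U hUN hU1 hU2 hUv using h1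
  set Y : ℕ → H →L[ℂ] H := fun m =>
    ∑ j : Fin (m + 1), (1 / ((m : ℝ) + 1)) • (star (U m j) * y * U m j) with hY
  have hYK : ∀ m, Y m ∈ K := by
    intro m
    refine hK.conv.sum_mem (fun j _ => by positivity) ?_
      (fun j _ => hK.inv' (hU1 m j) (hU2 m j) (hUN m j) hy)
    rw [Finset.sum_const, Finset.card_univ, Fintype.card_fin, nsmul_eq_mul]
    push_cast
    field_simp
  have hblock : ∀ (m : ℕ) (a b : Fin (m + 1)), star (v a) * Y m * v b =
      if a = b then ∑ c : Fin (m + 1), (1 / ((m : ℝ) + 1)) • (star (v c) * y * v c) else 0 := by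
    intro m a b
    have e : star (v a) * Y m * v b = ∑ j : Fin (m + 1), (1 / ((m : ℝ) + 1)) •
        (star (v (a + j : Fin (m + 1))) * y * v (b + j : Fin (m + 1))) := by
      rw [hY]
      simp only
      rw [Finset.mul_sum, Finset.sum_mul]
      refine Finset.sum_congr rfl fun j _ => ?_
      rw [mul_smul_comm, smul_mul_assoc, ← hUv m j a, ← hUv m j b, star_mul]
      simp only [mul_assoc]
    rw [e]
    by_cases hab : a = b
    · rw [if_pos hab, hab]
      exact Equiv.sum_comp (Equiv.addLeft b)
        fun c : Fin (m + 1) => (1 / ((m : ℝ) + 1)) • (star (v c) * y * v c)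
    · rw [if_neg hab]
      refine Finset.sum_eq_zero fun j _ => ?_
      rw [hyd, smul_zero]
      intro h'
      exact hab (add_right_cancel (Fin.ext h'))
  obtain ⟨w, hw⟩ := exists_WT (hyperfilter ℕ) Y C fun n => hK.bd _ (hYK n)
  refine ⟨star (v 0) * w * v 0, w, hK.cl.mem (Eventually.of_forall hYK) hw, fun a b => ?_⟩
  have hlim : ∀ a b : ℕ, WT (hyperfilter ℕ : Filter ℕ) (fun n => star (v a) * Y n * v b)
      (star (v a) * w * v b) := fun a b => (hw.mul_left _).mul_right _
  by_cases hab : a = b
  · rw [if_pos hab]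
    subst hab
    refine (hlim a a).unique ((hlim 0 0).congr' ?_)
    refine Nat.hyperfilter_le_atTop ?_
    filter_upwards [eventually_ge_atTop a] with n hn
    have k1 := hblock n ⟨a, by omega⟩ ⟨a, by omega⟩
    have k2 := hblock n ⟨0, by omega⟩ ⟨0, by omega⟩
    rw [if_pos rfl] at k1 k2
    rw [← k1] at k2
    exact k2
  · rw [if_neg hab]
    refine (hlim a b).unique (WT.of_eventually_eq ?_)
    refine Nat.hyperfilter_le_atTop ?_
    filter_upwards [eventually_ge_atTop (max a b)] with n hn
    have k1 := hblock n ⟨a, by omega⟩ ⟨b, by omega⟩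
    rw [if_neg (fun h => hab (congrArg Fin.val h))] at k1
    exact k1

/-- invariant elements of `LL K v` belong to `K` -/
theorem mem_of_LL (hv : Frame N v) {z : H →L[ℂ] H} (hz : z ∈ LL K v)
    (hinv : ∀ u ∈ unitary (H →L[ℂ] H), u ∈ N → u * z * star u = z) : z ∈ K := by
  obtain ⟨y, hy, hyz⟩ := hz
  have hc := comm_of_unitary hinv
  have h1 : y - z = 0 := by
    refine hv.span _ fun a b => ?_
    have h2 : star (v a) * (y - z) * v b = star (v a) * y * v b - star (v a) * v b * z := by
      rw [mul_sub, sub_mul, mul_assoc (star (v a)) z, ← hc _ (hv.mem b),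
        mul_assoc (star (v a)) (v b) z]
    rw [h2, hyz, hv.orth]
    split_ifs <;> simp
  rwa [sub_eq_zero.1 h1] at hy

end Pool.Agent.Y502.WD
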