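import Mathlib
import Pool.Agent.Y502.WD.Core
import Pool.Agent.H759R2.Kad.Props5

/-!
Approximate units from finite sums `∑ x* x`.
-/

set_option autoImplicit false
set_option linter.unusedSectionVars false

open scoped InnerProductSpace Topology ComplexOrder
open Filter

noncomputable section

namespace Pool.Agent.Y502.WD

universe u

variable {H : Type u} [NormedAddCommGroup H] [InnerProductSpace ℂ H] [CompleteSpace H]

/-- `(y + δ)^{-1/2}` -/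
def rr (y : H →L[ℂ] H) (δ : ℝ) : H →L[ℂ] H := cfc (fun t : ℝ => (√(t + δ))⁻¹) y

theorem rr_star (y : H →L[ℂ] H) (δ : ℝ) : star (rr y δ) = rr y δ :=
  (cfc_predicate (fun t : ℝ => (√(t + δ))⁻¹) y : IsSelfAdjoint _)

theorem rr_mem {N : VonNeumannAlgebra H} {y : H →L[ℂ] H} (hy : y ∈ N) (δ : ℝ) : rr y δ ∈ N := by
  have : IsClosed (N.toStarSubalgebra : Set (H →L[ℂ] H)) := inferInstance
  exact cfc_mem (𝕜' := ℂ) (s := N.toStarSubalgebra) (fun t : ℝ => (√(t + δ))⁻¹) hy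

theorem rr_mul {y : H →L[ℂ] H} (hy : 0 ≤ y) {δ : ℝ} (hδ : 0 < δ) :
    rr y δ * (y + (δ : ℂ) • 1) * rr y δ = 1 := by
  have hsa : IsSelfAdjoint y := IsSelfAdjoint.of_nonneg hy
  have hpos : ∀ x ∈ spectrum ℝ y, 0 < x + δ := by
    intro x hx
    have := spectrum_nonneg_of_nonneg hy hx
    linarith
  have c1 : ContinuousOn (fun x : ℝ => (√(x + δ))⁻¹) (spectrum ℝ y) :=
    (Real.continuous_sqrt.comp (continuous_id.add continuous_const)).continuousOn.inv₀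
      (fun x hx => (Real.sqrt_pos.2 (hpos x hx)).ne')
  have c2 : ContinuousOn (fun x : ℝ => x + δ) (spectrum ℝ y) :=
    (continuous_id.add continuous_const).continuousOn
  have h1 : y + (δ : ℂ) • 1 = cfc (fun x : ℝ => x + δ) y := by
    rw [cfc_add (a := y) (fun x : ℝ => x) (fun _ => δ) continuousOn_id continuousOn_const,
      cfc_id' ℝ y, cfc_const δ y, Algebra.algebraMap_eq_smul_one, Complex.coe_smul]
  rw [h1]
  unfold rr
  have c3 : ContinuousOn (fun x : ℝ => (√(x + δ))⁻¹ * (x + δ)) (spectrum ℝ y) := c1.mul c2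
  rw [← cfc_mul _ _ y c1 c2, ← cfc_mul _ _ y c3 c1, ← cfc_one ℝ y]
  refine cfc_congr fun x hx => ?_
  have h2 := hpos x hx
  have h3 : √(x + δ) * √(x + δ) = x + δ := Real.mul_self_sqrt h2.le
  have h4 : √(x + δ) ≠ 0 := (Real.sqrt_pos.2 h2).ne'
  simp only [Pi.one_apply]
  field_simp
  rw [sq]
  exact h3.symm

theorem norm_sq_eq (A : H →L[ℂ] H) (ξ : H) : (⟪ξ, (star A * A) ξ⟫_ℂ).re = ‖A ξ‖ ^ 2 := by
  have h : ⟪ξ, (star A * A) ξ⟫_ℂ = ⟪A ξ, A ξ⟫_ℂ := by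
    show ⟪ξ, (star A) (A ξ)⟫_ℂ = _
    rw [ContinuousLinearMap.star_eq_adjoint, ContinuousLinearMap.adjoint_inner_right]
  rw [h, inner_self_eq_norm_sq_to_K]
  norm_cast

section net

variable {𝒮 : Set (H →L[ℂ] H)}

/-- the positive operator of a finite set -/
def yy (i : Finset 𝒮 × ℕ) : H →L[ℂ] H := ∑ x ∈ i.1, star x.1 * x.1

/-- the small number -/
def dd (i : Finset 𝒮 × ℕ) : ℝ := 1 / ((i.2 : ℝ) + 1)

/-- `(y + δ)^{-1/2}` -/
def rn (i : Finset 𝒮 × ℕ) : H →L[ℂ] H := rr (yy i) (dd i)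

theorem dd_pos (i : Finset 𝒮 × ℕ) : 0 < dd i := by
  unfold dd
  positivity

theorem yy_nonneg (i : Finset 𝒮 × ℕ) : 0 ≤ yy i :=
  Finset.sum_nonneg fun x _ => star_mul_self_nonneg x.1

theorem rn_id (i : Finset 𝒮 × ℕ) :
    rn i * yy i * rn i + (dd i : ℂ) • (rn i * rn i) = 1 := by
  have h := rr_mul (yy_nonneg i) (dd_pos i)
  rw [mul_add, add_mul, mul_smul_comm, smul_mul_assoc, mul_one] at h
  exact h

theorem rn_star (i : Finset 𝒮 × ℕ) : star (rn i) = rn i := rr_star _ _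

theorem rn_form (i : Finset 𝒮 × ℕ) (ξ : H) :
    ∑ x ∈ i.1, ‖x.1 (rn i ξ)‖ ^ 2 + dd i * ‖rn i ξ‖ ^ 2 = ‖ξ‖ ^ 2 := by
  have h := congrArg (fun A : H →L[ℂ] H => (⟪ξ, A ξ⟫_ℂ).re) (rn_id i)
  have h1 : (⟪ξ, (1 : H →L[ℂ] H) ξ⟫_ℂ).re = ‖ξ‖ ^ 2 := by
    have := form_real (H := H) 1 ξ
    simpa using this
  rw [h1] at h
  rw [← h, ContinuousLinearMap.add_apply, inner_add_right, Complex.add_re]
  congr 1
  · have e : rn i * yy i * rn i = ∑ x ∈ i.1, star (x.1 * rn i) * (x.1 * rn i) := by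
      unfold yy
      rw [Finset.mul_sum, Finset.sum_mul]
      refine Finset.sum_congr rfl fun x _ => ?_
      rw [star_mul, rn_star]
      simp only [mul_assoc]
    rw [e]
    simp only [ContinuousLinearMap.sum_apply]
    rw [inner_sum, Complex.re_sum]
    refine Finset.sum_congr rfl fun x _ => ?_
    rw [norm_sq_eq]
    rfl
  · have e : ⟪ξ, ((dd i : ℂ) • (rn i * rn i)) ξ⟫_ℂ = (dd i : ℂ) * ⟪ξ, (rn i * rn i) ξ⟫_ℂ :=
      inner_smul_right _ _ _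
    rw [e, Complex.re_ofReal_mul]
    congr 1
    have e2 := norm_sq_eq (rn i) ξ
    rw [rn_star] at e2
    exact e2.symm

theorem rn_le (i : Finset 𝒮 × ℕ) (ξ : H) : √(dd i) * ‖rn i ξ‖ ≤ ‖ξ‖ := by
  have h := rn_form i ξ
  have h1 : 0 ≤ ∑ x ∈ i.1, ‖x.1 (rn i ξ)‖ ^ 2 := Finset.sum_nonneg fun _ _ => sq_nonneg _
  have h2 : (√(dd i) * ‖rn i ξ‖) ^ 2 ≤ ‖ξ‖ ^ 2 := by
    rw [mul_pow, Real.sq_sqrt (dd_pos i).le]
    linarith
  exact le_of_sq_le_sq h2 (norm_nonneg _)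

theorem rn_x_le (i : Finset 𝒮 × ℕ) {x : 𝒮} (hx : x ∈ i.1) (η : H) :
    ‖rn i (star x.1 η)‖ ≤ ‖η‖ := by
  have h1 : ‖x.1 * rn i‖ ≤ 1 := by
    refine ContinuousLinearMap.opNorm_le_bound _ zero_le_one fun ξ => ?_
    rw [one_mul]
    have h := rn_form i ξ
    have h2 : ‖x.1 (rn i ξ)‖ ^ 2 ≤ ∑ x ∈ i.1, ‖x.1 (rn i ξ)‖ ^ 2 :=
      Finset.single_le_sum (f := fun x : 𝒮 => ‖x.1 (rn i ξ)‖ ^ 2) (fun _ _ => sq_nonneg _) hx
    have h3 : 0 ≤ dd i * ‖rn i ξ‖ ^ 2 := mul_nonneg (dd_pos i).le (sq_nonneg _)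
    exact le_of_sq_le_sq (show ‖x.1 (rn i ξ)‖ ^ 2 ≤ ‖ξ‖ ^ 2 by linarith) (norm_nonneg _)
  have h2 : rn i (star x.1 η) = (star (x.1 * rn i)) η := by
    rw [star_mul, rn_star]
    rfl
  rw [h2]
  have h3 : ‖star (x.1 * rn i)‖ ≤ 1 := by rwa [norm_star]
  have := (star (x.1 * rn i)).le_of_opNorm_le h3 η
  simpa using this

/-- the vectors on which the net tends to zero -/
def VZ (𝒮 : Set (H →L[ℂ] H)) : Submodule ℂ H where
  carrier := {ξ | Tendsto (fun i : Finset 𝒮 × ℕ => √(dd i) * ‖rn i ξ‖) atTop (𝓝 0)}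
  zero_mem' := by
    simp only [Set.mem_setOf_eq, map_zero, norm_zero, mul_zero]
    exact tendsto_const_nhds
  add_mem' := by
    intro ξ η hξ hη
    simp only [Set.mem_setOf_eq] at hξ hη ⊢
    have h := hξ.add hη
    rw [add_zero] at h
    refine squeeze_zero (fun i => by positivity) (fun i => ?_) h
    rw [map_add, ← mul_add]
    exact mul_le_mul_of_nonneg_left (norm_add_le _ _) (Real.sqrt_nonneg _)
  smul_mem' := by
    intro c ξ hξ
    simp only [Set.mem_setOf_eq] at hξ ⊢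
    have h := hξ.const_mul ‖c‖
    rw [mul_zero] at h
    refine h.congr fun i => ?_
    rw [map_smul, norm_smul]
    ring

theorem VZ_closed : IsClosed (VZ 𝒮 : Set H) := by
  rw [isClosed_iff_clusterPt]
  intro ξ hξ
  rw [← mem_closure_iff_clusterPt, Metric.mem_closure_iff] at hξ
  show Tendsto (fun i : Finset 𝒮 × ℕ => √(dd i) * ‖rn i ξ‖) atTop (𝓝 0)
  rw [Metric.tendsto_nhds]
  intro ε hε
  obtain ⟨η, hη, hd⟩ := hξ (ε / 2) (by positivity)
  have hη' : Tendsto (fun i : Finset 𝒮 × ℕ => √(dd i) * ‖rn i η‖) atTop (𝓝 0) := hη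
  rw [Metric.tendsto_nhds] at hη'
  filter_upwards [hη' (ε / 2) (by positivity)] with i hi
  rw [Real.dist_eq, sub_zero, abs_of_nonneg (by positivity)] at hi ⊢
  have h1 : √(dd i) * ‖rn i (ξ - η)‖ ≤ ‖ξ - η‖ := rn_le i _
  rw [← dist_eq_norm] at h1
  have h2 : ‖rn i ξ‖ ≤ ‖rn i η‖ + ‖rn i (ξ - η)‖ := by
    have e : rn i ξ = rn i η + rn i (ξ - η) := by
      rw [← map_add]
      congr 1
      abel
    rw [e]
    exact norm_add_le _ _
  have h3 : √(dd i) * ‖rn i ξ‖ ≤ √(dd i) * (‖rn i η‖ + ‖rn i (ξ - η)‖) :=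
    mul_le_mul_of_nonneg_left h2 (Real.sqrt_nonneg _)
  rw [mul_add] at h3
  linarith

theorem gen_mem_VZ {x : H →L[ℂ] H} (hx : x ∈ 𝒮) (η : H) : star x η ∈ VZ 𝒮 := by
  show Tendsto (fun i : Finset 𝒮 × ℕ => √(dd i) * ‖rn i (star x η)‖) atTop (𝓝 0)
  have h1 : Tendsto (fun i : Finset 𝒮 × ℕ => √(dd i) * ‖η‖) atTop (𝓝 0) := by
    have h2 : Tendsto (fun i : Finset 𝒮 × ℕ => dd i) atTop (𝓝 0) := by
      have h3 : Tendsto (fun i : Finset 𝒮 × ℕ => i.2) atTop atTop := by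
        rw [← prod_atTop_atTop_eq]
        exact tendsto_snd
      exact (tendsto_one_div_add_atTop_nhds_zero_nat (𝕜 := ℝ)).comp h3
    have h4 := (Real.continuous_sqrt.tendsto 0).comp h2
    rw [Real.sqrt_zero] at h4
    have h5 := h4.mul_const ‖η‖
    rw [zero_mul] at h5
    exact h5
  refine squeeze_zero' (Eventually.of_forall fun i => by positivity) ?_ h1
  filter_upwards [eventually_ge_atTop (({⟨x, hx⟩} : Finset 𝒮), 0)] with i hi
  refine mul_le_mul_of_nonneg_left ?_ (Real.sqrt_nonneg _)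
  have hxi : (⟨x, hx⟩ : 𝒮) ∈ i.1 := hi.1 (Finset.mem_singleton_self _)
  exact rn_x_le i hxi η

/-- The approximate unit. -/
theorem net (h : (Submodule.span ℂ {ξ : H | ∃ x ∈ 𝒮, ∃ η : H, ξ = star x η}).topologicalClosure = ⊤)
    (ξ : H) : Tendsto (fun i : Finset 𝒮 × ℕ => dd i * ‖rn i ξ‖ ^ 2) atTop (𝓝 0) := by
  have h1 : (Submodule.span ℂ {ξ : H | ∃ x ∈ 𝒮, ∃ η : H, ξ = star x η}).topologicalClosure ≤
      VZ 𝒮 := by
    refine Submodule.topologicalClosure_minimal _ ?_ VZ_closed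
    rw [Submodule.span_le]
    rintro _ ⟨x, hx, η, rfl⟩
    exact gen_mem_VZ hx η
  rw [h] at h1
  have h2 : Tendsto (fun i : Finset 𝒮 × ℕ => √(dd i) * ‖rn i ξ‖) atTop (𝓝 0) :=
    h1 (Submodule.mem_top)
  have h3 := h2.pow 2
  rw [zero_pow two_ne_zero] at h3
  refine h3.congr fun i => ?_
  rw [mul_pow, Real.sq_sqrt (dd_pos i).le]

end net

end Pool.Agent.Y502.WD
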