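import Mathlib
import Pool.Agent.Y502.WD.Net
import Pool.Agent.Y502.WD.Inf2
import Pool.Agent.H272R2.BP.Pinf

/-!
Factors: spectral gaps, and the reduction step in the infinite case.
-/

set_option autoImplicit false
set_option linter.unusedSectionVars false

open scoped InnerProductSpace Topology ComplexOrder
open Filter

noncomputable section

namespace Pool.Agent.Y502.WD

open H759R2.Kad

universe u

variable {H : Type u} [NormedAddCommGroup H] [InnerProductSpace ℂ H] [CompleteSpace H]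

/-- trivial centre -/
def Fac (N : VonNeumannAlgebra H) : Prop :=
  ∀ z ∈ N, (∀ y ∈ N, z * y = y * z) → ∃ c : ℂ, z = c • (1 : H →L[ℂ] H)

theorem span_top {N : VonNeumannAlgebra H} (hN : Fac N) {e : H →L[ℂ] H} (he : e ∈ N)
    (he0 : e ≠ 0) :
    (Submodule.span ℂ {ξ : H | ∃ a ∈ N, ∃ η : H, ξ = a (e η)}).topologicalClosure = ⊤ := by
  set K0 : Submodule ℂ H := Submodule.span ℂ {x | ∃ a ∈ N, ∃ ξ : H, x = a (e ξ)} with hK0
  set K : Submodule ℂ H := K0.topologicalClosure with hK
  have : CompleteSpace K := K0.isClosed_topologicalClosure.completeSpace_coe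
  have hgen : ∀ a ∈ N, ∀ ξ : H, a (e ξ) ∈ K := fun a ha ξ =>
    K0.le_topologicalClosure (Submodule.subset_span ⟨a, ha, ξ, rfl⟩)
  have key : ∀ (y : H →L[ℂ] H) (L : Submodule ℂ H), IsClosed (L : Set H) →
      (∀ a ∈ N, ∀ ξ, y (a (e ξ)) ∈ L) → ∀ x ∈ K, y x ∈ L := by
    intro y L hL hy x hx
    have h1 : K0 ≤ L.comap (y : H →ₗ[ℂ] H) := by
      rw [hK0, Submodule.span_le]
      rintro _ ⟨a, ha, ξ, rfl⟩
      exact hy a ha ξ
    have h2 : IsClosed ((L.comap (y : H →ₗ[ℂ] H) : Submodule ℂ H) : Set H) := hL.preimage y.continuous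
    exact K0.topologicalClosure_minimal h1 h2 hx
  have hKc : IsClosed (K : Set H) := K0.isClosed_topologicalClosure
  have hrange : (K.starProjection : H →L[ℂ] H).range = K := Submodule.range_starProjection K
  have hr : K.starProjection ∈ N := by
    rw [VonNeumannAlgebra.IsStarProjection.mem_iff (isStarProjection_starProjection)]
    intro y hy
    rw [hrange]
    intro x hx
    rw [VonNeumannAlgebra.mem_commutant_iff] at hy
    apply key y K hKc _ x hx
    intro a ha ξ
    have h1 : y (a (e ξ)) = a (e (y ξ)) := by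
      have e1 := congrArg (fun T : H →L[ℂ] H => T ξ) (hy (a * e) (mul_mem ha he))
      simpa using e1.symm
    rw [h1]
    exact hgen a ha _
  have hr' : K.starProjection ∈ N.commutant := by
    rw [VonNeumannAlgebra.IsStarProjection.mem_iff (isStarProjection_starProjection)]
    intro y hy
    rw [VonNeumannAlgebra.commutant_commutant] at hy
    rw [hrange]
    intro x hx
    apply key y K hKc _ x hx
    intro a ha ξ
    exact hgen (y * a) (mul_mem hy ha) ξ
  rw [VonNeumannAlgebra.mem_commutant_iff] at hr'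
  obtain ⟨c, hc⟩ := hN _ hr fun y hy => (hr' y hy).symm
  have h1 : K.starProjection * e = e := by
    ext ξ
    have h1 : e ξ ∈ K := by simpa using hgen 1 (one_mem N) ξ
    exact Submodule.starProjection_eq_self_iff.2 h1
  rw [hc, smul_mul_assoc, one_mul] at h1
  have h2 : (c - 1) • e = 0 := by rw [sub_smul, h1, one_smul, sub_self]
  rcases smul_eq_zero.1 h2 with h | h
  · have hc1 : c = 1 := sub_eq_zero.1 h
    rw [hc1, one_smul] at hc
    rw [eq_top_iff]
    intro ξ _
    have := Submodule.starProjection_apply_mem K ξ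
    rwa [hc] at this
  · exact absurd h he0

/-- The spectral gap of a nonscalar element below `c`. -/
theorem spec_gap {N : VonNeumannAlgebra H} {b : H →L[ℂ] H} (hb : b ∈ N) (hbs : IsSelfAdjoint b)
    {c : ℝ} (hle : b ≤ (c : ℂ) • 1) (hne : b ≠ (c : ℂ) • 1) :
    ∃ e ∈ N, star e = e ∧ e * e = e ∧ e ≠ 0 ∧ ∃ t : ℝ, 0 < t ∧ b ≤ (c : ℂ) • 1 - (t : ℂ) • e := by
  have hW := H68R2.BP.H272Pinf.wst_all H N
  set a : H →L[ℂ] H := (c : ℂ) • 1 - b with ha
  have haN : a ∈ N := sub_mem (N.toStarSubalgebra.smul_mem (one_mem N) _) hb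
  have ha0 : 0 ≤ a := sub_nonneg.2 hle
  have hane : a ≠ 0 := fun h => hne (sub_eq_zero.1 h).symm
  have has : star a = a := (IsSelfAdjoint.of_nonneg ha0)
  set t : ℝ := ‖a‖ / 2 with ht
  have ht0 : 0 < t := by
    have := norm_pos_iff.2 hane
    positivity
  obtain ⟨e', ⟨he1, he2⟩, -, he4, ⟨y, hy⟩, ⟨y', hy'⟩⟩ := hW.spec 1 (⟨a, haN⟩ : N.toStarSubalgebra) t
    ⟨star_one _, one_mul _⟩ (Subtype.ext has) (one_mul _)
  set e : H →L[ℂ] H := e'.1 with he
  have h1 : star e = e := congrArg Subtype.val he1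
  have h2 : e * e = e := congrArg Subtype.val he2
  have h4 : e * a = a * e := congrArg Subtype.val he4
  have h5 : a * e - (t : ℂ) • e = star y.1 * y.1 := congrArg Subtype.val hy
  have h6 : (t : ℂ) • (1 - e) - a * (1 - e) = star y'.1 * y'.1 := congrArg Subtype.val hy'
  refine ⟨e, e'.2, h1, h2, ?_, t, ht0, ?_⟩
  · intro h0
    rw [h0, sub_zero, mul_one] at h6
    have h7 : a ≤ (t : ℂ) • 1 := by
      rw [← sub_nonneg, h6]
      exact star_mul_self_nonneg _
    have h8 : ‖a‖ ≤ t := by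
      have h9 : a ≤ algebraMap ℝ (H →L[ℂ] H) t := by
        rw [Algebra.algebraMap_eq_smul_one, ← Complex.coe_smul]
        exact h7
      exact (CStarAlgebra.norm_le_iff_le_algebraMap a ht0.le ha0).2 h9
    have h10 := norm_pos_iff.2 hane
    linarith
  · have h7 : 0 ≤ a * e - (t : ℂ) • e := by
      rw [h5]
      exact star_mul_self_nonneg _
    have h8 : 0 ≤ a * (1 - e) := by
      have e0' : ∀ x : H →L[ℂ] H, e * x = x * e → (1 - e) * x = x * (1 - e) := by
        intro x hx
        rw [sub_mul, mul_sub, one_mul, mul_one, hx]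
      have e0 : (1 - e) * a = a * (1 - e) := e0' a h4
      have e00 : (1 - e) * (1 - e) = 1 - e := by
        rw [sub_mul, one_mul, mul_sub, mul_one, h2, sub_self, sub_zero]
      have e1 : a * (1 - e) = star (1 - e) * a * (1 - e) := by
        rw [star_sub, star_one, h1, e0, mul_assoc, e00]
      rw [e1]
      exact star_left_conjugate_nonneg ha0 _
    have h9 : 0 ≤ (a * e - (t : ℂ) • e) + a * (1 - e) := add_nonneg h7 h8
    have h10 : (a * e - (t : ℂ) • e) + a * (1 - e) = ((c : ℂ) • 1 - (t : ℂ) • e) - b := by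
      rw [mul_sub, mul_one, ha]
      abel
    rw [h10] at h9
    exact sub_nonneg.1 h9

variable {N M : VonNeumannAlgebra H} {E : (H →L[ℂ] H) → (H →L[ℂ] H)}
  {K : Set (H →L[ℂ] H)} {C : ℝ} {v : ℕ → H →L[ℂ] H}

/-- The reduction step in the infinite case. -/
theorem red_inf (hE : IsNCE N M E) (hNM : ∀ a ∈ N, a ∈ M) (hN : Fac N) (hK : IsK N K C)
    (hKM : ∀ y ∈ K, y ∈ M) (hv : Frame N v) {z : H →L[ℂ] H} (hz : z ∈ LL K v) {c : ℝ}
    (hle : E (star z * z) ≤ (c : ℂ) • 1) (hne : E (star z * z) ≠ (c : ℂ) • 1) :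
    ∃ z' ∈ LL K v, ∃ c' < c, E (star z' * z') ≤ (c' : ℂ) • 1 := by
  classical
  have hzM : z ∈ M := LL_mem hv hNM hKM hz
  have hzz : star z * z ∈ M := mul_mem (star_mem hzM) hzM
  obtain ⟨e, heN, hes, hee, he0, t, ht, hb⟩ := spec_gap (hE.mem _ hzz) (hE.sa hzM) hle hne
  set b := E (star z * z) with hbdef
  set 𝒮 : Set (H →L[ℂ] H) := {x | x ∈ N ∧ e * x = x} with h𝒮
  have hspan : (Submodule.span ℂ {ξ : H | ∃ x ∈ 𝒮, ∃ η : H, ξ = star x η}).topologicalClosure =
      ⊤ := by
    rw [← span_top hN heN he0]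
    congr 2
    ext ξ
    constructor
    · rintro ⟨x, ⟨hxN, hex⟩, η, rfl⟩
      refine ⟨star x, star_mem hxN, η, ?_⟩
      have h1 : star x * e = star x := by
        have := congrArg star hex
        rwa [star_mul, hes] at this
      have h2 := congrArg (fun T : H →L[ℂ] H => T η) h1
      exact h2.symm
    · rintro ⟨a, ha, η, rfl⟩
      refine ⟨e * star a, ⟨mul_mem heN (star_mem ha), by rw [← mul_assoc, hee]⟩, η, ?_⟩
      rw [star_mul, star_star, hes]
      rfl
  have hnet := net hspan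
  -- the averaging maps
  let A : (i : Finset 𝒮 × ℕ) → Option i.1 → (H →L[ℂ] H) := fun i o =>
    match o with
    | none => ((√(dd i) : ℝ) : ℂ) • rn i
    | some x => x.1.1 * rn i
  have hrnN : ∀ i : Finset 𝒮 × ℕ, rn i ∈ N := fun i =>
    rr_mem (sum_mem fun x _ => mul_mem (star_mem x.2.1) x.2.1) _
  have hAN : ∀ i o, A i o ∈ N := by
    intro i o
    cases o with
    | none => exact N.toStarSubalgebra.smul_mem (hrnN i) _
    | some x => exact mul_mem x.1.2.1 (hrnN i)
  have hnone : ∀ (i : Finset 𝒮 × ℕ) (X : H →L[ℂ] H),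
      star (A i none) * X * A i none = (dd i : ℂ) • (rn i * X * rn i) := by
    intro i X
    show star (((√(dd i) : ℝ) : ℂ) • rn i) * X * (((√(dd i) : ℝ) : ℂ) • rn i) = _
    rw [star_smul, rn_star, smul_mul_assoc, smul_mul_smul_comm]
    congr 1
    have h1 : star ((√(dd i) : ℝ) : ℂ) = ((√(dd i) : ℝ) : ℂ) := Complex.conj_ofReal _
    rw [h1, ← Complex.ofReal_mul, Real.mul_self_sqrt (dd_pos i).le]
  have hsome : ∀ (i : Finset 𝒮 × ℕ) (X : H →L[ℂ] H) (x : i.1),
      star (A i (some x)) * X * A i (some x) = rn i * (star x.1.1 * X * x.1.1) * rn i := by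
    intro i X x
    show star (x.1.1 * rn i) * X * (x.1.1 * rn i) = _
    rw [star_mul, rn_star]
    simp only [mul_assoc]
  have hysum : ∀ i : Finset 𝒮 × ℕ, ∑ x : i.1, rn i * (star x.1.1 * x.1.1) * rn i =
      rn i * yy i * rn i := by
    intro i
    unfold yy
    rw [Finset.mul_sum, Finset.sum_mul]
    exact Finset.sum_coe_sort i.1 fun x : 𝒮 => rn i * (star x.1 * x.1) * rn i
  have hA1 : ∀ i, ∑ o, star (A i o) * A i o = 1 := by
    intro i
    rw [Fintype.sum_option]
    have h1 := hnone i 1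
    rw [mul_one, mul_one] at h1
    have h2 : ∀ x : i.1, star (A i (some x)) * A i (some x) =
        rn i * (star x.1.1 * x.1.1) * rn i := by
      intro x
      have := hsome i 1 x
      rwa [mul_one, mul_one] at this
    rw [h1, Finset.sum_congr rfl fun x _ => h2 x, hysum, add_comm]
    exact rn_id i
  set T : Finset 𝒮 × ℕ → H →L[ℂ] H := fun i => ∑ o, star (A i o) * z * A i o with hT
  have hTL : ∀ i, T i ∈ LL K v := fun i => LL_T hK hv (A i) (hAN i) (hA1 i) hz
  have hTM : ∀ i, T i ∈ M := fun i => LL_mem hv hNM hKM (hTL i)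
  have hTE : ∀ i, E (star (T i) * T i) ≤ ∑ o, star (A i o) * b * A i o := fun i =>
    hE.schwarz hNM Finset.univ (A i) (fun o _ => hAN i o) (hA1 i) hzM
  have hform : ∀ i ξ, (⟪ξ, E (star (T i) * T i) ξ⟫_ℂ).re ≤
      (c - t) * ‖ξ‖ ^ 2 + t * (dd i * ‖rn i ξ‖ ^ 2) := by
    intro i ξ
    have h1 : ∑ o, star (A i o) * b * A i o ≤
        ((c - t : ℝ) : ℂ) • 1 + ((t * dd i : ℝ) : ℂ) • (rn i * rn i) := by
      rw [Fintype.sum_option]
      have k1 : star (A i none) * b * A i none ≤ ((c * dd i : ℝ) : ℂ) • (rn i * rn i) := by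
        have := star_left_conjugate_le_conjugate hle (A i none)
        refine this.trans (le_of_eq ?_)
        rw [hnone, mul_smul_comm, mul_one, smul_mul_assoc, smul_smul]
        congr 1
        push_cast
        ring
      have k2 : ∀ x : i.1, star (A i (some x)) * b * A i (some x) ≤
          ((c - t : ℝ) : ℂ) • (rn i * (star x.1.1 * x.1.1) * rn i) := by
        intro x
        have := star_left_conjugate_le_conjugate hb (A i (some x))
        refine this.trans (le_of_eq ?_)
        rw [hsome]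
        have hx : e * x.1.1 = x.1.1 := x.1.2.2
        have e1 : star x.1.1 * ((c : ℂ) • 1 - (t : ℂ) • e) * x.1.1 =
            ((c - t : ℝ) : ℂ) • (star x.1.1 * x.1.1) := by
          rw [mul_sub, sub_mul, mul_smul_comm, mul_one, smul_mul_assoc, mul_smul_comm,
            smul_mul_assoc, mul_assoc (star x.1.1) e, hx, ← sub_smul]
          push_cast
          rfl
        rw [e1, mul_smul_comm, smul_mul_assoc]
      refine (add_le_add k1 (Finset.sum_le_sum fun x _ => k2 x)).trans (le_of_eq ?_)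
      rw [← Finset.smul_sum, hysum]
      have h3 : rn i * yy i * rn i = 1 - (dd i : ℂ) • (rn i * rn i) := by
        rw [← rn_id i]
        abel
      rw [h3, smul_sub, smul_smul]
      have e2 : ((c * dd i : ℝ) : ℂ) = ((c - t : ℝ) : ℂ) * (dd i : ℂ) + ((t * dd i : ℝ) : ℂ) := by
        push_cast
        ring
      rw [e2, add_smul]
      abel
    have h2 := form_of_le ((hTE i).trans h1) ξ
    refine h2.trans (le_of_eq ?_)
    rw [ContinuousLinearMap.add_apply, inner_add_right, Complex.add_re, form_real]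
    congr 1
    have e3 : ⟪ξ, (((t * dd i : ℝ) : ℂ) • (rn i * rn i)) ξ⟫_ℂ =
        ((t * dd i : ℝ) : ℂ) * ⟪ξ, (rn i * rn i) ξ⟫_ℂ := inner_smul_right _ _ _
    rw [e3, Complex.re_ofReal_mul]
    have e4 := norm_sq_eq (rn i) ξ
    rw [rn_star] at e4
    rw [e4]
    ring
  -- the limit
  set U : Ultrafilter (Finset 𝒮 × ℕ) := Ultrafilter.of atTop with hU
  have hUle : (U : Filter (Finset 𝒮 × ℕ)) ≤ atTop := Ultrafilter.of_le _
  have hTbd : ∀ i, ‖T i‖ ≤ C := fun i => LL_bd hK hv (hTL i)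
  obtain ⟨z', hz'⟩ := exists_WT U T C hTbd
  have hz'L : z' ∈ LL K v := (LL_cl hK).mem (Eventually.of_forall hTL) hz'
  have hz'M := LL_mem hv hNM hKM hz'L
  refine ⟨z', hz'L, c - t, by linarith, ?_⟩
  refine le_of_form (hE.sa hz'M) (isSelfAdjoint_real _) fun ξ => ?_
  rw [form_real]
  refine hE.lsc hTM hTbd hz' ξ (h' := fun i => (c - t) * ‖ξ‖ ^ 2 + t * (dd i * ‖rn i ξ‖ ^ 2))
    (fun i => hform i ξ) ?_
  have h1 := ((hnet ξ).const_mul t).const_add ((c - t) * ‖ξ‖ ^ 2)
  rw [mul_zero, add_zero] at h1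
  exact h1.mono_left hUle

end Pool.Agent.Y502.WD
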