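import Mathlib
import Pool.Agent.Y502.WD.Fac
import Pool.Agent.H121R2.Kad5.Cop

/-!
Frames in infinite factors, and the reduction step in finite factors.
-/

set_option autoImplicit false
set_option linter.unusedSectionVars false

open scoped InnerProductSpace Topology ComplexOrder
open Filter

noncomputable section

namespace Pool.Agent.Y502.WD

open H759R2.Kad

universe u

variable {H : Type u} [NormedAddCommGroup H] [InnerProductSpace ℂ H] [CompleteSpace H]
variable {N M : VonNeumannAlgebra H}

/-- the vectors orthogonal to all ranges -/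
def vker (v : ℕ → H →L[ℂ] H) : Submodule ℂ H where
  carrier := {ξ | ∀ i, star (v i) ξ = 0}
  zero_mem' := by intro i; simp
  add_mem' := by
    intro ξ η hξ hη i
    rw [map_add, hξ i, hη i, add_zero]
  smul_mem' := by
    intro c ξ hξ i
    rw [map_smul, hξ i, smul_zero]

theorem vker_closed (v : ℕ → H →L[ℂ] H) : IsClosed (vker v : Set H) := by
  have h : (vker v : Set H) = ⋂ i, {ξ | star (v i) ξ = 0} := by
    ext ξ
    simp [vker]
  rw [h]
  exact isClosed_iInter fun i => isClosed_eq (star (v i)).continuous continuous_const

/-- Completion of a sequence of isometries with orthogonal ranges to a frame. -/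
theorem exists_frame (v : ℕ → H →L[ℂ] H) (hvN : ∀ i, v i ∈ N)
    (hv : ∀ i j, star (v i) * v j = if i = j then 1 else 0) : ∃ w : ℕ → H →L[ℂ] H, Frame N w := by
  have : CompleteSpace (vker v) := (vker_closed v).completeSpace_coe
  set P : H →L[ℂ] H := (vker v).starProjection with hP
  have hsp : IsStarProjection P := isStarProjection_starProjection
  have hPs : star P = P := hsp.isSelfAdjoint
  have hPP : P * P = P := hsp.isIdempotentElem
  have hPmem : ∀ ξ, P ξ ∈ vker v := fun ξ => Submodule.starProjection_apply_mem _ ξ
  have hPN : P ∈ N := by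
    rw [VonNeumannAlgebra.IsStarProjection.mem_iff hsp]
    intro y hy
    rw [VonNeumannAlgebra.mem_commutant_iff] at hy
    have hrange : (P : H →L[ℂ] H).range = vker v := Submodule.range_starProjection _
    rw [hrange]
    intro ξ hξ i
    have h1 := congrArg (fun T : H →L[ℂ] H => T ξ) (hy (star (v i)) (star_mem (hvN i)))
    have h2 : star (v i) (y ξ) = y (star (v i) ξ) := h1
    have h3 : star (v i) ξ = 0 := hξ i
    show star (v i) (y ξ) = 0
    rw [h2, h3, map_zero]
  have hvP : ∀ i, star (v i) * P = 0 := by
    intro i
    ext ξ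
    exact hPmem ξ i
  have hPv : ∀ i, P * v i = 0 := by
    intro i
    have := congrArg star (hvP i)
    rwa [star_mul, star_star, hPs, star_zero] at this
  have hQ : P * (1 - P) = 0 := by rw [mul_sub, mul_one, hPP, sub_self]
  have hQ' : (1 - P) * P = 0 := by rw [sub_mul, one_mul, hPP, sub_self]
  have hQQ : (1 - P) * (1 - P) = 1 - P := by rw [mul_sub, hQ', mul_one, sub_zero]
  have hQs : star (1 - P) = 1 - P := by rw [star_sub, star_one, hPs]
  set Q : H →L[ℂ] H := 1 - P with hQdef
  have hPQ : P + Q = 1 := by rw [hQdef]; abel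
  clear_value Q
  let w : ℕ → H →L[ℂ] H := fun n =>
    match n with
    | 0 => P + v 0 * Q
    | i + 1 => v i * P + v (i + 1) * Q
  have hw0 : w 0 = P + v 0 * Q := rfl
  have hw1 : ∀ i, w (i + 1) = v i * P + v (i + 1) * Q := fun i => rfl
  have hs0 : star (w 0) = P + Q * star (v 0) := by rw [hw0, star_add, star_mul, hPs, hQs]
  have hs1 : ∀ i, star (w (i + 1)) = P * star (v i) + Q * star (v (i + 1)) := fun i => by
    rw [hw1, star_add, star_mul, star_mul, hPs, hQs]
  have hQN : Q ∈ N := by
    have : Q = 1 - P := by rw [← hPQ]; abel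
    rw [this]
    exact sub_mem (one_mem N) hPN
  have hwN : ∀ i, w i ∈ N := by
    intro i
    cases i with
    | zero => rw [hw0]; exact add_mem hPN (mul_mem (hvN 0) hQN)
    | succ i => rw [hw1]; exact add_mem (mul_mem (hvN i) hPN) (mul_mem (hvN _) hQN)
  have h0j : ∀ j, star (w 0) * w (j + 1) = 0 := by
    intro j
    rw [hs0, hw1]
    have e : (P + Q * star (v 0)) * (v j * P + v (j + 1) * Q) =
        P * v j * P + P * v (j + 1) * Q + Q * (star (v 0) * v j) * P +
          Q * (star (v 0) * v (j + 1)) * Q := by noncomm_ring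
    rw [e, hPv, hPv, hv, hv, if_neg (by omega : (0 : ℕ) ≠ j + 1)]
    split_ifs
    · rw [mul_one, hQ']
      simp
    · simp
  refine ⟨w, hwN, ?_, ?_⟩
  · intro a b
    cases a with
    | zero =>
      cases b with
      | zero =>
        rw [if_pos rfl, hs0, hw0]
        have e : (P + Q * star (v 0)) * (P + v 0 * Q) =
            P * P + P * v 0 * Q + Q * (star (v 0) * P) + Q * (star (v 0) * v 0) * Q := by
          noncomm_ring
        rw [e, hPP, hPv, hvP, hv, if_pos rfl, mul_one, hQQ, zero_mul, mul_zero, add_zero, add_zero,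
          hPQ]
      | succ j => rw [if_neg (by omega), h0j]
    | succ i =>
      cases b with
      | zero =>
        rw [if_neg (by omega)]
        have := congrArg star (h0j i)
        rwa [star_mul, star_star, star_zero] at this
      | succ j =>
        rw [hs1, hw1]
        have e : (P * star (v i) + Q * star (v (i + 1))) * (v j * P + v (j + 1) * Q) =
            P * (star (v i) * v j) * P + P * (star (v i) * v (j + 1)) * Q +
              Q * (star (v (i + 1)) * v j) * P + Q * (star (v (i + 1)) * v (j + 1)) * Q := by
          noncomm_ring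
        rw [e, hv, hv, hv, hv]
        have e2 : P * (if i = j + 1 then (1 : H →L[ℂ] H) else 0) * Q = 0 := by
          split_ifs
          · rw [mul_one, hQ]
          · simp
        have e3 : Q * (if i + 1 = j then (1 : H →L[ℂ] H) else 0) * P = 0 := by
          split_ifs
          · rw [mul_one, hQ']
          · simp
        rw [e2, e3, add_zero, add_zero]
        by_cases hij : i = j
        · rw [if_pos hij, if_pos (by omega), mul_one, mul_one, hPP, hQQ, hPQ]
        · rw [if_neg hij, if_neg (by omega)]
          simp
  · -- the span condition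
    have hvec : ∀ ξ : H, (∀ a, star (w a) ξ = 0) → ξ = 0 := by
      intro ξ hξ
      have happ : ∀ (A B : H →L[ℂ] H), (A * B) ξ = A (B ξ) := fun _ _ => rfl
      have k0 : P ξ + Q (star (v 0) ξ) = 0 := by
        have := hξ 0
        rw [hs0] at this
        exact this
      have k1 : ∀ i, P (star (v i) ξ) + Q (star (v (i + 1)) ξ) = 0 := by
        intro i
        have := hξ (i + 1)
        rw [hs1] at this
        exact this
      have split : ∀ α β : H, P α + Q β = 0 → P α = 0 ∧ Q β = 0 := by
        intro α β h
        have h1 := congrArg P h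
        rw [map_add, map_zero] at h1
        have h2 : P (P α) = P α := congrArg (fun T : H →L[ℂ] H => T α) hPP
        have h3 : P (Q β) = 0 := congrArg (fun T : H →L[ℂ] H => T β) hQ
        rw [h2, h3, add_zero] at h1
        exact ⟨h1, by rwa [h1, zero_add] at h⟩
      have hdec : ∀ α : H, P α + Q α = α := fun α =>
        congrArg (fun T : H →L[ℂ] H => T α) hPQ
      have hk : ∀ i, star (v i) ξ = 0 := by
        intro i
        rw [← hdec (star (v i) ξ), (split _ _ (k1 i)).1, zero_add]
        cases i with
        | zero => exact (split _ _ k0).2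
        | succ i => exact (split _ _ (k1 i)).2
      have hmem : ξ ∈ vker v := hk
      have h1 : P ξ = ξ := Submodule.starProjection_eq_self_iff.2 hmem
      rw [← h1]
      exact (split _ _ k0).1
    intro x hx
    have h1 : ∀ b, x * w b = 0 := by
      intro b
      ext η
      refine hvec _ fun a => ?_
      have := congrArg (fun T : H →L[ℂ] H => T η) (hx a b)
      exact this
    have h2 : star x = 0 := by
      ext η
      refine hvec _ fun b => ?_
      have := congrArg (fun T : H →L[ℂ] H => (star T) η) (h1 b)
      simp only [star_mul, star_zero] at this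
      exact this
    rw [← star_star x, h2, star_zero]

theorem cprj_cases (hN : Fac N) {g : N.toStarSubalgebra} (hg : CPrj g) : g = 0 ∨ g = 1 := by
  obtain ⟨c, hc⟩ := hN g.1 g.2 fun y hy => congrArg Subtype.val (hg.2 ⟨y, hy⟩)
  by_cases h0 : g = 0
  · exact Or.inl h0
  · right
    have hne : g.1 ≠ 0 := fun h => h0 (Subtype.ext h)
    have h1 : g.1 * g.1 = g.1 := congrArg Subtype.val hg.1.2
    have h2 : c • g.1 = g.1 := by
      conv_rhs => rw [← h1]
      conv_rhs => rw [hc]
      rw [smul_mul_assoc, one_mul, hc]
    have h3 : (c - 1) • g.1 = 0 := by rw [sub_smul, h2, one_smul, sub_self]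
    rcases smul_eq_zero.1 h3 with h | h
    · apply Subtype.ext
      rw [hc, sub_eq_zero.1 h, one_smul]
      rfl
    · exact absurd h hne

/-- Infinite factors contain frames. -/
theorem frame_of_infinite (hN : Fac N) (hinf : ¬ Fnt (1 : N.toStarSubalgebra)) :
    ∃ v : ℕ → H →L[ℂ] H, Frame N v := by
  have hW := H68R2.BP.H272Pinf.wst_all H N
  have h1 : CPrj (1 : N.toStarSubalgebra) := ⟨⟨star_one _, one_mul _⟩, fun a => by simp⟩
  obtain ⟨s1, s2, h11, h22, h12, -, h2⟩ := H68R2.BP.H272Pinf.isom_all N.toStarSubalgebra hW 1 h1 (by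
    intro z hz _ hf
    rcases cprj_cases hN hz with h | h
    · exact h
    · exact absurd (h ▸ hf) hinf)
  refine exists_frame (N := N) (fun i => (s1 ^ i * s2).1) (fun i => (s1 ^ i * s2).2) fun i j => ?_
  have h := H68R2.BP.H272Pinf.tuple (fun a => by simp) h11 h22 h12 h2 i j
  have h' := congrArg Subtype.val h
  by_cases hij : i = j
  · rw [if_pos hij] at h' ⊢
    exact h'
  · rw [if_neg hij] at h' ⊢
    exact h'

end Pool.Agent.Y502.WD
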