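import Mathlib
import Pool.Agent.Y502.WD.Frm
import Pool.Agent.H697R2.Kad5.W13

/-!
The reduction step in finite factors, and faithfulness of conditional expectations.
-/

set_option autoImplicit false
set_option linter.unusedSectionVars false

open scoped InnerProductSpace Topology ComplexOrder
open Filter

noncomputable section

namespace Pool.Agent.Y502.WD

open H759R2.Kad

universe u

variable {H : Type u} [NormedAddCommGroup H] [InnerProductSpace ℂ H] [CompleteSpace H]
variable {N M : VonNeumannAlgebra H} {E : (H →L[ℂ] H) → (H →L[ℂ] H)}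
  {K : Set (H →L[ℂ] H)} {C : ℝ}

theorem cop_all : W_cop.{u} := prove6_cop prove6_comp (prove6_inf prove6_seq)

/-- four summands -/
theorem four_le (x : Fin 4 → H →L[ℂ] H) :
    (∑ k, x k) * star (∑ k, x k) ≤ ((4 : ℝ) : ℂ) • ∑ k, x k * star (x k) := by
  rw [← sub_nonneg]
  have e : ((4 : ℝ) : ℂ) • ∑ k, x k * star (x k) - (∑ k, x k) * star (∑ k, x k) =
      (x 0 - x 1) * star (x 0 - x 1) + (x 0 - x 2) * star (x 0 - x 2) +
      (x 0 - x 3) * star (x 0 - x 3) + (x 1 - x 2) * star (x 1 - x 2) +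
      (x 1 - x 3) * star (x 1 - x 3) + (x 2 - x 3) * star (x 2 - x 3) := by
    have h4 : ∀ A : H →L[ℂ] H, ((4 : ℝ) : ℂ) • A = A + A + A + A := by
      intro A
      have : ((4 : ℝ) : ℂ) = 1 + 1 + 1 + 1 := by norm_num
      rw [this, add_smul, add_smul, add_smul, one_smul]
    rw [h4, Fin.sum_univ_four, Fin.sum_univ_four]
    simp only [star_add, star_sub]
    noncomm_ring
  rw [e]
  have h : ∀ A : H →L[ℂ] H, 0 ≤ A * star A := fun A => mul_star_self_nonneg A
  exact add_nonneg (add_nonneg (add_nonneg (add_nonneg (add_nonneg (h _) (h _)) (h _)) (h _))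
    (h _)) (h _)

theorem norm_pi_le {w : H →L[ℂ] H} (h : w * star w * w = w) : ‖w‖ ≤ 1 := by
  have h1 : star w * w * (star w * w) = star w * w := by
    calc star w * w * (star w * w) = star w * (w * star w * w) := by noncomm_ring
      _ = _ := by rw [h]
  have h2 : ‖star w * w‖ = ‖w‖ * ‖w‖ := CStarRing.norm_star_mul_self
  have h3 : ‖star w * w * (star w * w)‖ = ‖star w * w‖ * ‖star w * w‖ := by
    have : star (star w * w) = star w * w := by rw [star_mul, star_star]
    conv_lhs => rw [← this]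
    rw [this]
    have h4 := CStarRing.norm_star_mul_self (x := star w * w)
    rwa [this] at h4
  rw [h1, h2] at h3
  by_contra hc
  push Not at hc
  have h5 : 1 < ‖w‖ * ‖w‖ := by nlinarith
  nlinarith

/-- In a finite factor finitely many unitary conjugates of a nonzero projection dominate `1`. -/
theorem full_of_finite (hN : Fac N) (hfin : Fnt (1 : N.toStarSubalgebra)) {e : H →L[ℂ] H}
    (he : e ∈ N) (hes : star e = e) (hee : e * e = e) (he0 : e ≠ 0) :
    ∃ (n : ℕ) (u : Fin n × Fin 4 → H →L[ℂ] H), (∀ p, u p ∈ N ∧ star (u p) * u p = 1 ∧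
      u p * star (u p) = 1) ∧ 1 ≤ ∑ p, u p * e * star (u p) := by
  have hW := H68R2.BP.H272Pinf.wst_all H N
  have h1 : CPrj (1 : N.toStarSubalgebra) := ⟨⟨star_one _, one_mul _⟩, fun a => by simp⟩
  obtain ⟨g, hg, -, hg0, n, w, hw, hsum⟩ := cop_all N.toStarSubalgebra hW 1 h1 hfin ⟨e, he⟩
    ⟨Subtype.ext hes, Subtype.ext hee⟩ (one_mul _) (fun h => he0 (congrArg Subtype.val h))
  have hg1 : g = 1 := (cprj_cases hN hg).resolve_left hg0
  rw [hg1] at hsum
  have hsum' : ∑ j, (w j).1 * star (w j).1 = 1 := by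
    have := congrArg Subtype.val hsum
    rw [AddSubmonoidClass.coe_finset_sum] at this
    exact this
  choose U c hc hcn using fun j => CStarAlgebra.exists_sum_four_unitary (w j)
  refine ⟨n, fun p => (U p.1 p.2 : N.toStarSubalgebra).1, fun p => ⟨(U p.1 p.2 : N.toStarSubalgebra).2,
    congrArg Subtype.val (Unitary.coe_star_mul_self (U p.1 p.2)),
    congrArg Subtype.val (Unitary.coe_mul_star_self (U p.1 p.2))⟩, ?_⟩
  rw [Fintype.sum_prod_type, ← hsum']
  refine Finset.sum_le_sum fun j _ => ?_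
  have hwe : (w j).1 * e = (w j).1 := congrArg Subtype.val (hw j).2
  have hpi : (w j).1 * star (w j).1 * (w j).1 = (w j).1 := congrArg Subtype.val (hw j).1
  have hnorm : ‖(w j).1‖ ≤ 1 := norm_pi_le hpi
  have hnorm' : ‖w j‖ ≤ 1 := hnorm
  have hexp : (w j).1 = ∑ k, c j k • (U j k : N.toStarSubalgebra).1 := by
    have := congrArg Subtype.val (hc j)
    rw [AddSubmonoidClass.coe_finset_sum] at this
    exact this
  have h2 : (w j).1 * star (w j).1 =
      (∑ k, (c j k • (U j k : N.toStarSubalgebra).1) * e) *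
        star (∑ k, (c j k • (U j k : N.toStarSubalgebra).1) * e) := by
    rw [← Finset.sum_mul, ← hexp, hwe]
  rw [h2]
  refine (four_le _).trans ?_
  rw [Finset.smul_sum]
  refine Finset.sum_le_sum fun k _ => ?_
  set V : H →L[ℂ] H := (U j k : N.toStarSubalgebra).1 with hV
  have h3 : (c j k • V) * e * star ((c j k • V) * e) = ((‖c j k‖ ^ 2 : ℝ) : ℂ) • (V * e * star V) := by
    have e1 : star ((c j k • V) * e) = star (c j k) • (e * star V) := by
      rw [star_mul, hes, star_smul, mul_smul_comm]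
    rw [e1, smul_mul_assoc, smul_mul_smul_comm]
    congr 1
    · have : c j k * star (c j k) = ((‖c j k‖ ^ 2 : ℝ) : ℂ) := by
        rw [Complex.star_def, Complex.mul_conj, Complex.normSq_eq_norm_sq]
      exact this
    · calc V * e * (e * star V) = V * (e * e) * star V := by noncomm_ring
        _ = _ := by rw [hee]
  rw [h3, smul_smul, ← Complex.ofReal_mul]
  have h4 : 0 ≤ V * e * star V := by
    have := star_right_conjugate_nonneg (show 0 ≤ e by
      have := star_mul_self_nonneg e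
      rwa [hes, hee] at this) V
    exact this
  have h5 : 4 * ‖c j k‖ ^ 2 ≤ 1 := by
    have h6 : ‖c j k‖ ≤ 1 / 2 := (hcn j k).trans (by linarith)
    nlinarith [norm_nonneg (c j k)]
  refine le_of_form ?_ (IsSelfAdjoint.of_nonneg h4) fun ξ => ?_
  · have h7 : IsSelfAdjoint (V * e * star V) := IsSelfAdjoint.of_nonneg h4
    rw [isSelfAdjoint_iff, star_smul, h7.star_eq]
    congr 1
    exact Complex.conj_ofReal _
  · have h8 : ⟪ξ, (((4 * ‖c j k‖ ^ 2 : ℝ) : ℂ) • (V * e * star V)) ξ⟫_ℂ =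
        ((4 * ‖c j k‖ ^ 2 : ℝ) : ℂ) * ⟪ξ, (V * e * star V) ξ⟫_ℂ := inner_smul_right _ _ _
    rw [h8, Complex.re_ofReal_mul]
    have h9 := form_of_le h4 ξ
    simp only [ContinuousLinearMap.zero_apply, inner_zero_right, Complex.zero_re] at h9
    nlinarith

/-- The reduction step in the finite case. -/
theorem red_fin [Nontrivial H] (hE : IsNCE N M E) (hNM : ∀ a ∈ N, a ∈ M) (hN : Fac N)
    (hfin : Fnt (1 : N.toStarSubalgebra)) (hK : IsK N K C)
    (hKM : ∀ y ∈ K, y ∈ M) {z : H →L[ℂ] H} (hz : z ∈ K) {c : ℝ}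
    (hle : E (star z * z) ≤ (c : ℂ) • 1) (hne : E (star z * z) ≠ (c : ℂ) • 1) :
    ∃ z' ∈ K, ∃ c' < c, E (star z' * z') ≤ (c' : ℂ) • 1 := by
  have hzM : z ∈ M := hKM z hz
  have hzz : star z * z ∈ M := mul_mem (star_mem hzM) hzM
  obtain ⟨e, heN, hes, hee, he0, t, ht, hb⟩ := spec_gap (hE.mem _ hzz) (hE.sa hzM) hle hne
  obtain ⟨n, u, hu, hu1⟩ := full_of_finite hN hfin heN hes hee he0
  set b := E (star z * z) with hbdef
  have hn : 0 < n := by
    rcases Nat.eq_zero_or_pos n with h | h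
    · subst h
      rw [Finset.univ_eq_empty, Finset.sum_empty] at hu1
      obtain ⟨ξ, hξ⟩ := exists_ne (0 : H)
      have h1 := form_of_le hu1 ξ
      have h2 : (⟪ξ, (1 : H →L[ℂ] H) ξ⟫_ℂ).re = ‖ξ‖ ^ 2 := by
        have := form_real (H := H) 1 ξ
        simpa using this
      rw [h2] at h1
      simp only [ContinuousLinearMap.zero_apply, inner_zero_right, Complex.zero_re] at h1
      have := norm_pos_iff.2 hξ
      nlinarith
    · exact h
  have hm : (0 : ℝ) < 4 * n := by positivity
  set m : ℝ := (4 * n : ℝ)⁻¹ with hmdef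
  have hmpos : 0 < m := inv_pos.2 hm
  have hcard : (Fintype.card (Fin n × Fin 4) : ℝ) * m = 1 := by
    rw [Fintype.card_prod, Fintype.card_fin, Fintype.card_fin, hmdef]
    push_cast
    field_simp
  let a : Fin n × Fin 4 → H →L[ℂ] H := fun p => ((√m : ℝ) : ℂ) • star (u p)
  have haN : ∀ p, a p ∈ N := fun p => N.toStarSubalgebra.smul_mem (star_mem (hu p).1) _
  have haX : ∀ p (X : H →L[ℂ] H), star (a p) * X * a p = (m : ℂ) • (u p * X * star (u p)) := by
    intro p X
    show star (((√m : ℝ) : ℂ) • star (u p)) * X * (((√m : ℝ) : ℂ) • star (u p)) = _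
    rw [star_smul, star_star, smul_mul_assoc, smul_mul_smul_comm]
    congr 1
    have h1 : star ((√m : ℝ) : ℂ) = ((√m : ℝ) : ℂ) := Complex.conj_ofReal _
    rw [h1, ← Complex.ofReal_mul, Real.mul_self_sqrt hmpos.le]
  have ha1 : ∑ p, star (a p) * a p = 1 := by
    have h1 : ∀ p, star (a p) * a p = (m : ℂ) • (1 : H →L[ℂ] H) := by
      intro p
      have := haX p 1
      rw [mul_one, mul_one, (hu p).2.2] at this
      exact this
    rw [Finset.sum_congr rfl fun p _ => h1 p, Finset.sum_const, Finset.card_univ, ← Nat.cast_smul_eq_nsmul ℂ,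
      smul_smul]
    have h2 : ((Fintype.card (Fin n × Fin 4) : ℕ) : ℂ) * (m : ℂ) = 1 := by
      exact_mod_cast hcard
    rw [h2, one_smul]
  set T : H →L[ℂ] H := ∑ p, star (a p) * z * a p with hT
  have hTK : T ∈ K := by
    have h1 : T = ∑ p, m • (u p * z * star (u p)) := by
      rw [hT]
      refine Finset.sum_congr rfl fun p _ => ?_
      rw [haX, Complex.coe_smul]
    rw [h1]
    refine hK.conv.sum_mem (fun p _ => hmpos.le) ?_ fun p _ =>
      hK.inv (u p) (Unitary.mem_iff.2 ⟨(hu p).2.1, (hu p).2.2⟩) (hu p).1 z hz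
    rw [Finset.sum_const, Finset.card_univ, nsmul_eq_mul]
    exact hcard
  have hTE : E (star T * T) ≤ ∑ p, star (a p) * b * a p :=
    hE.schwarz hNM Finset.univ a (fun p _ => haN p) ha1 hzM
  refine ⟨T, hTK, c - m * t, by nlinarith [mul_pos hmpos ht], hTE.trans ?_⟩
  have h1 : ∑ p, star (a p) * b * a p ≤ ∑ p, star (a p) * ((c : ℂ) • 1 - (t : ℂ) • e) * a p :=
    Finset.sum_le_sum fun p _ => star_left_conjugate_le_conjugate hb (a p)
  refine h1.trans ?_
  have h2 : ∑ p, star (a p) * ((c : ℂ) • 1 - (t : ℂ) • e) * a p =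
      (c : ℂ) • 1 - ((m * t : ℝ) : ℂ) • ∑ p, u p * e * star (u p) := by
    have h3 : ∀ p, star (a p) * ((c : ℂ) • 1 - (t : ℂ) • e) * a p =
        (c : ℂ) • (star (a p) * a p) - ((m * t : ℝ) : ℂ) • (u p * e * star (u p)) := by
      intro p
      have gen : ∀ A : H →L[ℂ] H, star A * ((c : ℂ) • 1 - (t : ℂ) • e) * A =
          (c : ℂ) • (star A * A) - (t : ℂ) • (star A * e * A) := by
        intro A
        rw [mul_sub, sub_mul, mul_smul_comm, mul_one, smul_mul_assoc, mul_smul_comm,
          smul_mul_assoc]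
      rw [gen, haX, smul_smul]
      congr 2
      push_cast
      ring
    rw [Finset.sum_congr rfl fun p _ => h3 p, Finset.sum_sub_distrib, ← Finset.smul_sum, ha1,
      ← Finset.smul_sum]
  rw [h2]
  have h4 : 0 ≤ ((m * t : ℝ) : ℂ) • (∑ p, u p * e * star (u p) - 1) := by
    have h5 := sub_nonneg.2 hu1
    rw [Complex.coe_smul]
    exact smul_nonneg (mul_pos hmpos ht).le h5
  rw [← sub_nonneg]
  refine h4.trans (le_of_eq ?_)
  rw [smul_sub]
  push_cast
  rw [sub_smul]
  abel

end Pool.Agent.Y502.WD
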