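import Mathlib
import Pool.Agent.Y502.WD.Fin

/-!
Faithfulness of normal conditional expectations onto irreducible subalgebras, and the main
theorem for invariant weakly compact convex sets.
-/

set_option autoImplicit false
set_option linter.unusedSectionVars false

open scoped InnerProductSpace Topology ComplexOrder
open Filter

noncomputable section

namespace Pool.Agent.Y502.WD

open H759R2.Kad

universe u

variable {H : Type u} [NormedAddCommGroup H] [InnerProductSpace ℂ H] [CompleteSpace H]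
variable {N M : VonNeumannAlgebra H} {E : (H →L[ℂ] H) → (H →L[ℂ] H)}
  {K : Set (H →L[ℂ] H)} {C : ℝ}

theorem rr_comm (y : H →L[ℂ] H) (hy : 0 ≤ y) (δ : ℝ) : rr y δ * y = y * rr y δ := by
  have hsa : IsSelfAdjoint y := IsSelfAdjoint.of_nonneg hy
  have h := cfc_commute_cfc (fun t : ℝ => (√(t + δ))⁻¹) (fun t : ℝ => t) y
  rw [cfc_id' ℝ y] at h
  exact h

/-- A normal conditional expectation onto an irreducible subalgebra is faithful. -/
theorem faithful [Nontrivial H] (hE : IsNCE N M E) (hNM : ∀ a ∈ N, a ∈ M)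
    (hirr : ∀ z ∈ M, (∀ y ∈ N, z * y = y * z) → ∃ c : ℂ, z = c • (1 : H →L[ℂ] H)) :
    ∀ x ∈ M, E (star x * x) = 0 → x = 0 := by
  classical
  intro x0 hx0 hEx0
  by_contra hne
  set 𝒮 : Set (H →L[ℂ] H) := {x | x ∈ M ∧ E (star x * x) = 0} with h𝒮
  set K0 : Submodule ℂ H := Submodule.span ℂ {ξ : H | ∃ x ∈ 𝒮, ∃ η : H, ξ = star x η} with hK0
  set V : Submodule ℂ H := K0.topologicalClosure with hV
  have : CompleteSpace V := K0.isClosed_topologicalClosure.completeSpace_coe
  have hVc : IsClosed (V : Set H) := K0.isClosed_topologicalClosure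
  have hgen : ∀ x ∈ 𝒮, ∀ η : H, star x η ∈ V := fun x hx η =>
    K0.le_topologicalClosure (Submodule.subset_span ⟨x, hx, η, rfl⟩)
  have key : ∀ (y : H →L[ℂ] H), (∀ x ∈ 𝒮, ∀ η, y (star x η) ∈ V) → ∀ ξ ∈ V, y ξ ∈ V := by
    intro y hy ξ hξ
    have h1 : K0 ≤ V.comap (y : H →ₗ[ℂ] H) := by
      rw [hK0, Submodule.span_le]
      rintro _ ⟨x, hx, η, rfl⟩
      exact hy x hx η
    have h2 : IsClosed ((V.comap (y : H →ₗ[ℂ] H) : Submodule ℂ H) : Set H) :=
      hVc.preimage y.continuous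
    exact K0.topologicalClosure_minimal h1 h2 hξ
  have hrange : (V.starProjection : H →L[ℂ] H).range = V := Submodule.range_starProjection V
  have hr : V.starProjection ∈ M := by
    rw [VonNeumannAlgebra.IsStarProjection.mem_iff (isStarProjection_starProjection)]
    intro y hy
    rw [hrange]
    intro ξ hξ
    rw [VonNeumannAlgebra.mem_commutant_iff] at hy
    apply key y _ ξ hξ
    intro x hx η
    have h1 : y (star x η) = star x (y η) := by
      have e1 := congrArg (fun T : H →L[ℂ] H => T η) (hy (star x) (star_mem hx.1))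
      exact e1.symm
    rw [h1]
    exact hgen x hx _
  have hr' : V.starProjection ∈ N.commutant := by
    rw [VonNeumannAlgebra.IsStarProjection.mem_iff (isStarProjection_starProjection)]
    intro y hy
    rw [VonNeumannAlgebra.commutant_commutant] at hy
    rw [hrange]
    intro ξ hξ
    apply key y _ ξ hξ
    intro x hx η
    have h1 : x * star y ∈ 𝒮 := by
      refine ⟨mul_mem hx.1 (hNM _ (star_mem hy)), ?_⟩
      have e1 : star (x * star y) * (x * star y) = y * (star x * x) * star y := by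
        rw [star_mul, star_star]
        noncomm_ring
      rw [e1, hE.bimod y hy (star y) (star_mem hy) _ (mul_mem (star_mem hx.1) hx.1), hx.2]
      simp
    have h2 := hgen _ h1 η
    rw [star_mul, star_star] at h2
    exact h2
  rw [VonNeumannAlgebra.mem_commutant_iff] at hr'
  obtain ⟨c, hc⟩ := hirr _ hr fun y hy => (hr' y hy).symm
  have htop : V = ⊤ := by
    have h1 : V.starProjection * star x0 = star x0 := by
      ext ξ
      exact Submodule.starProjection_eq_self_iff.2 (hgen x0 ⟨hx0, hEx0⟩ ξ)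
    rw [hc, smul_mul_assoc, one_mul] at h1
    have h2 : (c - 1) • star x0 = 0 := by rw [sub_smul, h1, one_smul, sub_self]
    rcases smul_eq_zero.1 h2 with h | h
    · have hc1 : c = 1 := sub_eq_zero.1 h
      rw [hc1, one_smul] at hc
      rw [eq_top_iff]
      intro ξ _
      have := Submodule.starProjection_apply_mem V ξ
      rwa [hc] at this
    · exact absurd (star_eq_zero.1 h) hne
  have hnet := net (𝒮 := 𝒮) htop
  -- the approximate unit
  have hyM : ∀ i : Finset 𝒮 × ℕ, yy i ∈ M := fun i =>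
    sum_mem fun x _ => mul_mem (star_mem x.2.1) x.2.1
  have hrM : ∀ i : Finset 𝒮 × ℕ, rn i ∈ M := fun i => rr_mem (hyM i) _
  have hEy : ∀ i : Finset 𝒮 × ℕ, E (yy i) = 0 := by
    intro i
    unfold yy
    rw [hE.sum i.1 _ fun x _ => mul_mem (star_mem x.2.1) x.2.1]
    exact Finset.sum_eq_zero fun x _ => x.2.2
  set R : Finset 𝒮 × ℕ → H →L[ℂ] H := fun i => (dd i : ℂ) • (rn i * rn i) with hR
  have hRM : ∀ i, R i ∈ M := fun i => M.toStarSubalgebra.smul_mem (mul_mem (hrM i) (hrM i)) _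
  have hyr : ∀ i : Finset 𝒮 × ℕ, rn i * yy i * rn i ∈ M := fun i =>
    mul_mem (mul_mem (hrM i) (hyM i)) (hrM i)
  have hEryr : ∀ i : Finset 𝒮 × ℕ, E (rn i * yy i * rn i) = 0 := by
    intro i
    have hcomm : rn i * yy i = yy i * rn i := rr_comm _ (yy_nonneg i) _
    have h0 : 0 ≤ E (rn i * yy i * rn i) := by
      have e : rn i * yy i * rn i = ∑ x ∈ i.1, star (x.1 * rn i) * (x.1 * rn i) := by
        unfold yy
        rw [Finset.mul_sum, Finset.sum_mul]
        refine Finset.sum_congr rfl fun x _ => ?_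
        rw [star_mul, rn_star]
        simp only [mul_assoc]
      have hm : ∀ x ∈ i.1, star (x.1 * rn i) * (x.1 * rn i) ∈ M := fun x _ =>
        mul_mem (star_mem (mul_mem x.2.1 (hrM i))) (mul_mem x.2.1 (hrM i))
      rw [e, hE.sum i.1 _ hm]
      exact Finset.sum_nonneg fun x _ => hE.nonneg (mul_mem x.2.1 (hrM i))
    have h1 : star (rn i * yy i) * (rn i * yy i) = yy i - (dd i : ℂ) • (rn i * yy i * rn i) := by
      have hys : star (yy i) = yy i := IsSelfAdjoint.of_nonneg (yy_nonneg i)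
      have h2 := rn_id i
      rw [star_mul, rn_star, hys]
      have h3 : yy i * rn i * (rn i * yy i) = (rn i * yy i * rn i) * yy i := by
        rw [← hcomm]
        noncomm_ring
      have h4 : (rn i * yy i * rn i) * yy i = (1 - (dd i : ℂ) • (rn i * rn i)) * yy i := by
        rw [eq_sub_of_add_eq h2]
      have h5 : rn i * rn i * yy i = rn i * yy i * rn i := by
        calc rn i * rn i * yy i = rn i * (rn i * yy i) := mul_assoc _ _ _
          _ = rn i * (yy i * rn i) := by rw [hcomm]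
          _ = rn i * yy i * rn i := (mul_assoc _ _ _).symm
      rw [h3, h4, sub_mul, one_mul, smul_mul_assoc, h5]
    have h2 := hE.nonneg (mul_mem (hrM i) (hyM i))
    rw [h1, hE.sub (hyM i) (M.toStarSubalgebra.smul_mem (hyr i) _), hEy, zero_sub,
      hE.smul _ _ (hyr i)] at h2
    have h3 : ((dd i : ℝ) : ℂ) • E (rn i * yy i * rn i) ≤ 0 := neg_nonneg.1 h2
    rw [Complex.coe_smul] at h3
    have h4 : E (rn i * yy i * rn i) ≤ 0 := by
      have h5 := smul_le_smul_of_nonneg_left h3 (inv_pos.2 (dd_pos i)).le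
      rw [smul_smul, inv_mul_cancel₀ (dd_pos i).ne', one_smul, smul_zero] at h5
      exact h5
    exact le_antisymm h4 h0
  have hER : ∀ i, E (R i) = 1 := by
    intro i
    have h1 : R i = 1 - rn i * yy i * rn i := by
      rw [hR]
      simp only
      rw [← rn_id i]
      abel
    rw [h1, hE.sub (one_mem M) (hyr i), hEryr, hE.one, sub_zero]
  have hRn : ∀ i, ‖R i‖ ≤ 1 := by
    intro i
    have h1 : ‖((√(dd i) : ℝ) : ℂ) • rn i‖ ≤ 1 := by
      refine ContinuousLinearMap.opNorm_le_bound _ zero_le_one fun ξ => ?_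
      rw [one_mul]
      have h2 : (((√(dd i) : ℝ) : ℂ) • rn i) ξ = ((√(dd i) : ℝ) : ℂ) • rn i ξ := rfl
      rw [h2, norm_smul, Complex.norm_real, Real.norm_of_nonneg (Real.sqrt_nonneg _)]
      exact rn_le i ξ
    have h2 : R i = (((√(dd i) : ℝ) : ℂ) • rn i) * (((√(dd i) : ℝ) : ℂ) • rn i) := by
      rw [smul_mul_smul_comm, ← Complex.ofReal_mul, Real.mul_self_sqrt (dd_pos i).le]
    rw [h2]
    refine (norm_mul_le _ _).trans ?_
    nlinarith [norm_nonneg (((√(dd i) : ℝ) : ℂ) • rn i)]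
  have hRlim : WT (atTop : Filter (Finset 𝒮 × ℕ)) R 0 := by
    intro ξ η
    rw [ContinuousLinearMap.zero_apply, inner_zero_right]
    have h1 := ((hnet ξ).add (hnet η)).const_mul (1 / 2)
    rw [add_zero, mul_zero] at h1
    refine squeeze_zero_norm (fun i => ?_) h1
    have h2 : ⟪η, R i ξ⟫_ℂ = (dd i : ℂ) * ⟪rn i η, rn i ξ⟫_ℂ := by
      have e1 : ⟪η, R i ξ⟫_ℂ = (dd i : ℂ) * ⟪η, rn i (rn i ξ)⟫_ℂ := inner_smul_right _ _ _
      rw [e1]
      congr 1
      have e2 : rn i = star (rn i) := (rn_star i).symm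
      conv_lhs => rw [e2]
      rw [ContinuousLinearMap.star_eq_adjoint, ContinuousLinearMap.adjoint_inner_right,
        ← ContinuousLinearMap.star_eq_adjoint, rn_star]
    rw [h2, norm_mul, Complex.norm_real, Real.norm_of_nonneg (dd_pos i).le]
    have h3 := norm_inner_le_norm (𝕜 := ℂ) (rn i η) (rn i ξ)
    have h4 : ‖rn i η‖ * ‖rn i ξ‖ ≤ 1 / 2 * (‖rn i ξ‖ ^ 2 + ‖rn i η‖ ^ 2) := by
      nlinarith [sq_nonneg (‖rn i η‖ - ‖rn i ξ‖)]
    calc dd i * ‖⟪rn i η, rn i ξ⟫_ℂ‖ ≤ dd i * (1 / 2 * (‖rn i ξ‖ ^ 2 + ‖rn i η‖ ^ 2)) :=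
          mul_le_mul_of_nonneg_left (h3.trans h4) (dd_pos i).le
      _ = _ := by ring
  have hfin := hE.wt hRM hRn (zero_mem M) hRlim
  simp only [hER, hE.zero] at hfin
  have h01 : (1 : H →L[ℂ] H) = 0 := (WT.const (F := (atTop : Filter (Finset 𝒮 × ℕ))) 1).unique hfin
  exact one_ne_zero h01

/-- Main theorem: fixed points in invariant weakly compact convex sets. -/
theorem main_K (hE : IsNCE N M E) (hNM : ∀ a ∈ N, a ∈ M) (hN : Fac N)
    (hF : ∀ x ∈ M, E (star x * x) = 0 → x = 0) (hK : IsK N K C) (hKM : ∀ y ∈ K, y ∈ M) :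
    ∃ z ∈ K, ∀ a ∈ N, a * z = z * a := by
  by_cases hH : Nontrivial H
  · by_cases hfin : Fnt (1 : N.toStarSubalgebra)
    · obtain ⟨z, hz, hzu⟩ := core hE hNM hF K hKM hK.ne hK.conv C hK.bd hK.cl hK.inv
        (fun z hz c h1 h2 => red_fin hE hNM hN hfin hK hKM hz h1 h2)
      exact ⟨z, hz, comm_of_unitary hzu⟩
    · obtain ⟨v, hv⟩ := frame_of_infinite hN hfin
      obtain ⟨z, hz, hzu⟩ := core hE hNM hF (LL K v) (fun z hz => LL_mem hv hNM hKM hz)
        (LL_ne hK hv) (LL_conv hK) C (fun z hz => LL_bd hK hv hz) (LL_cl hK)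
        (fun u hu huN z hz => LL_inv hK hv hu huN hz)
        (fun z hz c h1 h2 => red_inf hE hNM hN hK hKM hv hz h1 h2)
      exact ⟨z, mem_of_LL hv hz hzu, comm_of_unitary hzu⟩
  · rw [not_nontrivial_iff_subsingleton] at hH
    obtain ⟨z, hz⟩ := hK.ne
    refine ⟨z, hz, fun a _ => ?_⟩
    ext ξ
    exact Subsingleton.elim _ _

end Pool.Agent.Y502.WD
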