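import Mathlib
import Pool.Agent.Y502.WD.Fai

/-!
The weakly closed convex hull of the unitary conjugates.
-/

set_option autoImplicit false
set_option linter.unusedSectionVars false

open scoped InnerProductSpace Topology ComplexOrder
open Filter

noncomputable section

namespace Pool.Agent.Y502.WD

universe u

variable {H : Type u} [NormedAddCommGroup H] [InnerProductSpace ℂ H] [CompleteSpace H]

/-- convex hull of the unitary conjugates -/
def hull (N : VonNeumannAlgebra H) (x : H →L[ℂ] H) : Set (H →L[ℂ] H) :=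
  convexHull ℝ {T : H →L[ℂ] H | ∃ u ∈ unitary (H →L[ℂ] H), u ∈ N ∧ T = u * x * star u}

/-- its weak closure -/
def KN (N : VonNeumannAlgebra H) (x : H →L[ℂ] H) : Set (H →L[ℂ] H) :=
  {y | ∀ (n : ℕ) (ξ η : Fin n → H) (ε : ℝ), 0 < ε → ∃ y' ∈ hull N x,
    ∀ i : Fin n, ‖⟪η i, (y' - y) (ξ i)⟫_ℂ‖ < ε}

variable {N M : VonNeumannAlgebra H} {x : H →L[ℂ] H}

theorem norm_unitary_le' {u : H →L[ℂ] H} (hu : u ∈ unitary (H →L[ℂ] H)) : ‖u‖ ≤ 1 :=
  norm_isometry_le (Unitary.mem_iff.1 hu).1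

theorem hull_norm {y : H →L[ℂ] H} (hy : y ∈ hull N x) : ‖y‖ ≤ ‖x‖ := by
  have h1 : hull N x ⊆ Metric.closedBall 0 ‖x‖ := by
    refine convexHull_min ?_ (convex_closedBall _ _)
    rintro _ ⟨u, hu, -, rfl⟩
    rw [mem_closedBall_zero_iff]
    have h2 := norm_unitary_le' hu
    calc ‖u * x * star u‖ ≤ ‖u‖ * ‖x‖ * ‖star u‖ :=
          (norm_mul_le _ _).trans (mul_le_mul_of_nonneg_right (norm_mul_le _ _) (norm_nonneg _))
      _ ≤ 1 * ‖x‖ * 1 := by
          rw [norm_star]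
          gcongr
      _ = ‖x‖ := by ring
  have := h1 hy
  rwa [mem_closedBall_zero_iff] at this

theorem hull_mem (hNM : ∀ a ∈ N, a ∈ M) (hx : x ∈ M) {y : H →L[ℂ] H} (hy : y ∈ hull N x) :
    y ∈ M := by
  have hc : Convex ℝ (M : Set (H →L[ℂ] H)) := by
    intro y hy z hz s t _ _ _
    have h1 : s • y ∈ M := by
      rw [← Complex.coe_smul]
      exact M.toStarSubalgebra.smul_mem hy _
    have h2 : t • z ∈ M := by
      rw [← Complex.coe_smul]
      exact M.toStarSubalgebra.smul_mem hz _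
    exact add_mem h1 h2
  have h1 : hull N x ⊆ (M : Set (H →L[ℂ] H)) := by
    refine convexHull_min ?_ hc
    rintro _ ⟨u, -, huN, rfl⟩
    have h3 : u * x * star u ∈ M := mul_mem (mul_mem (hNM u huN) hx) (star_mem (hNM u huN))
    exact h3
  exact h1 hy

theorem hull_conj {u y : H →L[ℂ] H} (hu : u ∈ unitary (H →L[ℂ] H)) (huN : u ∈ N)
    (hy : y ∈ hull N x) : u * y * star u ∈ hull N x := by
  let L : (H →L[ℂ] H) →ₗ[ℝ] (H →L[ℂ] H) :=
    { toFun := fun y => u * y * star u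
      map_add' := fun a b => by rw [mul_add, add_mul]
      map_smul' := fun c a => by rw [mul_smul_comm, smul_mul_assoc]; rfl }
  have h1 : hull N x ⊆ L ⁻¹' hull N x := by
    refine convexHull_min ?_ ((convex_convexHull ℝ _).linear_preimage L)
    rintro _ ⟨w, hw, hwN, rfl⟩
    refine subset_convexHull ℝ _ ⟨u * w, mul_mem hu hw, mul_mem huN hwN, ?_⟩
    show u * (w * x * star w) * star u = _
    rw [star_mul]
    simp only [mul_assoc]
  exact h1 hy

theorem isK (N : VonNeumannAlgebra H) (x : H →L[ℂ] H) : IsK N (KN N x) ‖x‖ := by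
  refine ⟨⟨x, ?_⟩, ?_, ?_, ?_, ?_⟩
  · intro n ξ η ε hε
    refine ⟨x, subset_convexHull ℝ _ ⟨1, one_mem _, one_mem N, by simp⟩, fun i => ?_⟩
    simpa using hε
  · -- convexity
    intro y hy z hz s t hs ht hst n ξ η ε hε
    obtain ⟨y', hy', hy''⟩ := hy n ξ η ε hε
    obtain ⟨z', hz', hz''⟩ := hz n ξ η ε hε
    refine ⟨s • y' + t • z', (convex_convexHull ℝ _) hy' hz' hs ht hst, fun i => ?_⟩
    have e : ⟪η i, ((s • y' + t • z') - (s • y + t • z)) (ξ i)⟫_ℂ =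
        (s : ℂ) * ⟪η i, (y' - y) (ξ i)⟫_ℂ + (t : ℂ) * ⟪η i, (z' - z) (ξ i)⟫_ℂ := by
      have e1 : (s • y' + t • z') - (s • y + t • z) =
          (s : ℂ) • (y' - y) + (t : ℂ) • (z' - z) := by
        rw [Complex.coe_smul, Complex.coe_smul, smul_sub, smul_sub]
        abel
      rw [e1]
      show ⟪η i, (s : ℂ) • (y' - y) (ξ i) + (t : ℂ) • (z' - z) (ξ i)⟫_ℂ = _
      rw [inner_add_right, inner_smul_right, inner_smul_right]
    rw [e]
    have h1 := hy'' i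
    have h2 := hz'' i
    calc _ ≤ ‖(s : ℂ) * ⟪η i, (y' - y) (ξ i)⟫_ℂ‖ + ‖(t : ℂ) * ⟪η i, (z' - z) (ξ i)⟫_ℂ‖ :=
          norm_add_le _ _
      _ = s * ‖⟪η i, (y' - y) (ξ i)⟫_ℂ‖ + t * ‖⟪η i, (z' - z) (ξ i)⟫_ℂ‖ := by
          rw [norm_mul, norm_mul, Complex.norm_real, Complex.norm_real, Real.norm_of_nonneg hs,
            Real.norm_of_nonneg ht]
      _ < ε := by
          rcases hs.eq_or_lt with h | h
          · have : t = 1 := by linarith
            rw [← h, this]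
            linarith
          · have h3 : t * ‖⟪η i, (z' - z) (ξ i)⟫_ℂ‖ ≤ t * ε := mul_le_mul_of_nonneg_left h2.le ht
            have h4 : s * ‖⟪η i, (y' - y) (ξ i)⟫_ℂ‖ < s * ε := mul_lt_mul_of_pos_left h1 h
            have h5 : s * ε + t * ε = ε := by rw [← add_mul, hst, one_mul]
            linarith
  · -- boundedness
    intro y hy
    refine y.opNorm_le_bound (norm_nonneg _) fun ξ => ?_
    have key : ∀ η : H, ‖⟪η, y ξ⟫_ℂ‖ ≤ ‖η‖ * (‖x‖ * ‖ξ‖) := by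
      intro η
      refine le_of_forall_pos_le_add fun ε hε => ?_
      obtain ⟨y', hy', h1⟩ := hy 1 (fun _ => ξ) (fun _ => η) ε hε
      have h2 := h1 0
      have h3 : ‖⟪η, y' ξ⟫_ℂ‖ ≤ ‖η‖ * (‖x‖ * ‖ξ‖) :=
        (norm_inner_le_norm _ _).trans (mul_le_mul_of_nonneg_left
          (y'.le_of_opNorm_le (hull_norm hy') ξ) (norm_nonneg _))
      have h4 : ⟪η, y ξ⟫_ℂ = ⟪η, y' ξ⟫_ℂ - ⟪η, (y' - y) ξ⟫_ℂ := by
        rw [ContinuousLinearMap.sub_apply, inner_sub_right]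
        ring
      rw [h4]
      refine (norm_sub_le _ _).trans ?_
      linarith
    have h1 := key (y ξ)
    have h2 : ‖⟪y ξ, y ξ⟫_ℂ‖ = ‖y ξ‖ * ‖y ξ‖ := by
      rw [inner_self_eq_norm_sq_to_K]
      simp [sq]
    rw [h2] at h1
    by_cases h0 : ‖y ξ‖ = 0
    · rw [h0]
      positivity
    · exact le_of_mul_le_mul_left h1 (lt_of_le_of_ne (norm_nonneg _) (Ne.symm h0))
  · -- closedness
    intro F hF hKF z hz n ξ η ε hε
    have h1 : ∀ i : Fin n, ∀ᶠ y : H →L[ℂ] H in F, ‖⟪η i, (y - z) (ξ i)⟫_ℂ‖ < ε / 2 := by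
      intro i
      have h2 := (Metric.tendsto_nhds.1 (hz (ξ i) (η i))) (ε / 2) (by positivity)
      filter_upwards [h2] with y hy
      rw [dist_eq_norm] at hy
      rw [ContinuousLinearMap.sub_apply, inner_sub_right]
      exact hy
    obtain ⟨y, hy, hyK⟩ := ((eventually_all.2 h1).and hKF).exists
    obtain ⟨y', hy', h2⟩ := hyK n ξ η (ε / 2) (by positivity)
    refine ⟨y', hy', fun i => ?_⟩
    have e : ⟪η i, (y' - z) (ξ i)⟫_ℂ = ⟪η i, (y' - y) (ξ i)⟫_ℂ + ⟪η i, (y - z) (ξ i)⟫_ℂ := by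
      rw [← inner_add_right]
      congr 1
      simp
    rw [e]
    refine (norm_add_le _ _).trans_lt ?_
    have := h2 i
    have := hy i
    linarith
  · -- invariance
    intro u hu huN y hy n ξ η ε hε
    obtain ⟨y', hy', h1⟩ := hy n (fun i => star u (ξ i)) (fun i => star u (η i)) ε hε
    refine ⟨u * y' * star u, hull_conj hu huN hy', fun i => ?_⟩
    have e : ⟪η i, (u * y' * star u - u * y * star u) (ξ i)⟫_ℂ =
        ⟪star u (η i), (y' - y) (star u (ξ i))⟫_ℂ := by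
      have e1 : u * y' * star u - u * y * star u = u * (y' - y) * star u := by
        rw [mul_sub, sub_mul]
      rw [e1]
      show ⟪η i, u ((y' - y) (star u (ξ i)))⟫_ℂ = _
      rw [ContinuousLinearMap.star_eq_adjoint, ContinuousLinearMap.adjoint_inner_left]
    rw [e]
    exact h1 i

theorem KN_mem (hNM : ∀ a ∈ N, a ∈ M) (hx : x ∈ M) : ∀ y ∈ KN N x, y ∈ M := by
  intro y hy
  rw [← M.commutant_commutant, VonNeumannAlgebra.mem_commutant_iff]
  intro g hg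
  rw [VonNeumannAlgebra.mem_commutant_iff] at hg
  ext ξ
  refine ext_inner_left ℂ fun η => ?_
  rw [← sub_eq_zero, ← norm_eq_zero]
  refine le_antisymm (le_of_forall_pos_le_add fun ε hε => ?_) (norm_nonneg _)
  obtain ⟨y', hy', h1⟩ := hy 2 ![ξ, g ξ] ![star g η, η] (ε / 2) (by positivity)
  have h2 : ‖⟪star g η, (y' - y) ξ⟫_ℂ‖ < ε / 2 := by simpa using h1 0
  have h3 : ‖⟪η, (y' - y) (g ξ)⟫_ℂ‖ < ε / 2 := by simpa using h1 1
  have h4 : g * y' = y' * g := (hg y' (hull_mem hNM hx hy')).symm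
  have h5 : g (y' ξ) = y' (g ξ) := congrArg (fun T : H →L[ℂ] H => T ξ) h4
  have e : ⟪η, (g * y) ξ⟫_ℂ - ⟪η, (y * g) ξ⟫_ℂ =
      ⟪η, (y' - y) (g ξ)⟫_ℂ - ⟪star g η, (y' - y) ξ⟫_ℂ := by
    rw [ContinuousLinearMap.star_eq_adjoint, ContinuousLinearMap.adjoint_inner_left]
    show ⟪η, g (y ξ)⟫_ℂ - ⟪η, y (g ξ)⟫_ℂ = ⟪η, y' (g ξ) - y (g ξ)⟫_ℂ - ⟪η, g (y' ξ - y ξ)⟫_ℂ
    rw [map_sub, inner_sub_right, inner_sub_right, h5]
    ring
  rw [e, zero_add]
  refine (norm_sub_le _ _).trans ?_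
  linarith

end Pool.Agent.Y502.WD
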